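import Pool.Agent.Lib.MP_b0e20b_ag_F.Abs
import Pool.Agent.Lib.MP_b0e20b_ag_F.Sys

/-!
# MP_b0e20b_ag, project G: definitions

Project G proves lower bounds for the number `K` of real solutions: the leading points of the
solutions are classified by the growth exponents `w` of the unknowns. For given `w` the leading
points are the solutions of a system of binomial equations. If the corresponding finite group is
cyclic of order `m ≤ D` there are at most `D` complex leading points, and at least two real ones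
over the two signs of the coefficients.
-/

set_option autoImplicit false

open scoped BigOperators Topology
open Filter

namespace Pool.Agent.MPb0eF

/-- `v` is in the lattice which is spanned by the differences of the exponents inside the levels. -/
def InG {Ω Λ : Type} [Fintype Ω] (ex : Ω → Λ → ℤ) (lev : Ω → ℕ) (v : Λ → ℤ) : Prop :=
  ∃ c : Ω → ℤ, BSum lev c ∧ ∀ l, ∑ E, c E * ex E l = v l

/-- The quotient by the lattice is cyclic of order `m`, generated by the unknown `l0`. If `m` is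
even then the `m`-th power of `l0` contains an odd number of the elements in `mo`. -/
structure Cyc {Ω Λ : Type} [Fintype Ω] [Fintype Λ] [DecidableEq Λ] (ex : Ω → Λ → ℤ)
    (lev : Ω → ℕ) (mo : Ω → Bool) (l0 : Λ) (m : ℕ) : Prop where
  pos : 1 ≤ m
  gen : ∀ l, ∃ a : ℤ, InG ex lev fun l' => (if l' = l then 1 else 0) - a * if l' = l0 then 1 else 0
  inv : ∃ f : Λ → ℤ, f l0 = 1 ∧
    ∀ E E', lev E = lev E' → (m : ℤ) ∣ ∑ l, (ex E l - ex E' l) * f l
  ord : ∃ c : Ω → ℤ, BSum lev c ∧ (∀ l, ∑ E, c E * ex E l = if l = l0 then (m : ℤ) else 0) ∧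
    (Even m → Odd (∑ E, if mo E then c E else 0))

/-- `w` is the vector of the growth exponents of a flag with cyclic group of order `m`. -/
def Ty {Ω Λ Ρ : Type} [Fintype Ω] [Fintype Λ] [Fintype Ρ] [DecidableEq Λ] (vec : Ω → Ρ → ℤ)
    (ex : Ω → Λ → ℤ) (h : Ω → ℝ) (mo : Ω → Bool) (w : Λ → ℝ) (m : ℕ) : Prop :=
  ∃ (lev : Ω → ℕ) (ζ : Ω → ℂ) (l0 : Λ), Lev h ex w lev ∧ (∀ E, ζ E ≠ 0) ∧
    (∀ j, InR vec lev j ζ) ∧ Uq vec lev ζ ∧ Sp ex lev ∧ Cyc ex lev mo l0 m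

/-- The combinatorial condition: all possible flags are cyclic of order at most `D`. -/
def CQ {Ω Λ Ρ : Type} [Fintype Ω] [Fintype Λ] [Fintype Ρ] [DecidableEq Λ] (D : ℕ)
    (vec : Ω → Ρ → ℤ) (ex : Ω → Λ → ℤ) (h : Ω → ℝ) (mo : Ω → Bool) : Prop :=
  ∀ (w : Λ → ℝ) (lev : Ω → ℕ) (ζ : Ω → ℂ), Lev h ex w lev → (∀ E, ζ E ≠ 0) →
    (∀ j, InR vec lev j ζ) → Uq vec lev ζ → Sp ex lev →
      ∃ (l0 : Λ) (m : ℕ), m ≤ D ∧ Cyc ex lev mo l0 m

/-- The balance condition: the orders `m` of the groups are on the average at most `A / B`. -/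
def BQ {Ω Λ Ρ : Type} [Fintype Ω] [Fintype Λ] [Fintype Ρ] [DecidableEq Λ] (A B : ℕ)
    (vec : Ω → Ρ → ℤ) (ex : Ω → Λ → ℤ) (h : Ω → ℝ) (mo : Ω → Bool) : Prop :=
  ∀ (W : Finset (Λ → ℝ)) (m : (Λ → ℝ) → ℕ), (∀ w ∈ W, Ty vec ex h mo w (m w)) →
    ∃ (W' : Finset (Λ → ℝ)) (m' : (Λ → ℝ) → ℕ), W ⊆ W' ∧ (∀ w ∈ W, m w ≤ m' w) ∧
      (∀ w ∈ W', Ty vec ex h mo w (m' w)) ∧ B * ∑ w ∈ W', m' w ≤ A * W'.card

/-- `x0` is a leading point for the growth exponents `w`. -/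
def FD {Ω Λ Ρ : Type} [Fintype Ω] [Fintype Λ] [Fintype Ρ] (vec : Ω → Ρ → ℤ) (ex : Ω → Λ → ℤ)
    (h : Ω → ℝ) (k : Ω → ℝ) (w : Λ → ℝ) (x0 : Λ → ℂ) : Prop :=
  (∀ l, x0 l ≠ 0) ∧ ∃ (lev : Ω → ℕ) (ζ : Ω → ℂ), Lev h ex w lev ∧ (∀ E, ζ E ≠ 0) ∧
    (∀ j, InR vec lev j ζ) ∧ Uq vec lev ζ ∧ Sp ex lev ∧ ∀ E E', lev E = lev E' →
      (k E : ℂ) * (∏ l, x0 l ^ ex E l) * ζ E' = (k E' : ℂ) * (∏ l, x0 l ^ ex E' l) * ζ E

/-- The leading coefficients with the sign `s` for the elements in `mo`. -/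
def ks {Ω : Type} (mo : Ω → Bool) (k : Ω → ℝ) (s : ℝ) (E : Ω) : ℝ := if mo E then s * k E else k E

/-- The linearised system at the values `z` has only the zero solution. -/
def ND {Ω Λ Ρ : Type} [Fintype Ω] [Fintype Λ] (vec : Ω → Ρ → ℤ) (ex : Ω → Λ → ℤ) (z : Ω → ℝ) :
    Prop :=
  ∀ η : Λ → ℝ, (∀ ρ, ∑ E, z E * (∑ l, (ex E l : ℝ) * η l) * (vec E ρ : ℝ) = 0) → η = 0

/-- The monomials among the elements of the critical system. -/
def moF {κ : Type} {d : ℕ} (bl : κ → Fin d) : El bl → Bool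
  | .inl _ => true
  | .inr _ => false

end Pool.Agent.MPb0eF
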