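import Pool.Agent.Lib.MP_b0e20b_ag_G.Defs

/-!
# MP_b0e20b_ag, project G: the balance condition from a parametrisation of the flags
-/

set_option autoImplicit false

open scoped BigOperators Topology

namespace Pool.Agent.MPb0eF

variable {Ω Λ Ρ : Type} [Fintype Ω] [Fintype Λ] [Fintype Ρ] [DecidableEq Λ] {vec : Ω → Ρ → ℤ}
  {ex : Ω → Λ → ℤ} {h : Ω → ℝ} {mo : Ω → Bool}

/-- The balance condition holds if the flags are parametrised by a finite set `S` of cells `c` with
growth exponents `W c` and orders `μ c`. -/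
theorem bq_of {ι : Type} (S : Finset ι) (W : ι → Λ → ℝ) (μ : ι → ℕ)
    (hT : ∀ c ∈ S, Ty vec ex h mo (W c) (μ c))
    (hinj : ∀ c ∈ S, ∀ c' ∈ S, W c = W c' → c = c')
    (hcls : ∀ w m, Ty vec ex h mo w m → ∃ c ∈ S, W c = w ∧ m ≤ μ c) {A B : ℕ}
    (hAB : B * ∑ c ∈ S, μ c ≤ A * S.card) : BQ A B vec ex h mo := by
  classical
  intro W0 m hW0
  rcases S.eq_empty_or_nonempty with rfl | ⟨c0, hc0⟩
  · refine ⟨∅, m, ?_, ?_, ?_, ?_⟩
    · intro w hw
      obtain ⟨c, hc, -⟩ := hcls w (m w) (hW0 w hw)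
      exact absurd hc (Finset.notMem_empty c)
    · exact fun w _ => le_refl _
    · intro w hw
      exact absurd hw (Finset.notMem_empty w)
    · simp
  have hex : ∀ w : Λ → ℝ, ∃ c, w ∈ S.image W → c ∈ S ∧ W c = w := by
    intro w
    by_cases hw : w ∈ S.image W
    · obtain ⟨c, hc, hcw⟩ := Finset.mem_image.1 hw
      exact ⟨c, fun _ => ⟨hc, hcw⟩⟩
    · exact ⟨c0, fun h1 => absurd h1 hw⟩
  choose g hg using hex
  have hgW : ∀ c ∈ S, g (W c) = c := by
    intro c hc
    obtain ⟨h1, h2⟩ := hg (W c) (Finset.mem_image_of_mem W hc)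
    exact hinj _ h1 _ hc h2
  refine ⟨S.image W, fun w => μ (g w), ?_, ?_, ?_, ?_⟩
  · intro w hw
    obtain ⟨c, hc, hcw, -⟩ := hcls w (m w) (hW0 w hw)
    exact hcw ▸ Finset.mem_image_of_mem W hc
  · intro w hw
    obtain ⟨c, hc, hcw, hm⟩ := hcls w (m w) (hW0 w hw)
    have h1 : g w = c := by rw [← hcw]; exact hgW c hc
    change m w ≤ μ (g w)
    rw [h1]
    exact hm
  · intro w hw
    obtain ⟨c, hc, hcw⟩ := Finset.mem_image.1 hw
    have h1 : g w = c := by rw [← hcw]; exact hgW c hc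
    change Ty vec ex h mo w (μ (g w))
    rw [h1, ← hcw]
    exact hT c hc
  · have hi : Set.InjOn W (S : Set ι) := fun c hc c' hc' h1 => hinj c hc c' hc' h1
    rw [Finset.card_image_of_injOn hi, Finset.sum_image hi]
    refine le_trans (le_of_eq ?_) hAB
    congr 1
    exact Finset.sum_congr rfl fun c hc => by rw [hgW c hc]

end Pool.Agent.MPb0eF
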