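import Pool.Agent.Lib.MP_b0e20b_ag_G.Defs

/-!
# MP_b0e20b_ag, project G: real solutions of the critical system
-/

set_option autoImplicit false

open scoped BigOperators Topology

namespace Pool.Agent.MPb0eF

open MPb0eQ (Sct dS sq PA G Hv)

variable {κ : Type} [Fintype κ] [DecidableEq κ] {d : ℕ} {bl : κ → Fin d}

/-- The coefficients of the elements. -/
def cF (c : Sct bl → ℝ) : El bl → ℝ
  | .inl S => c S.1
  | .inr _ => 1

/-- The sum over the elements. -/
private theorem Sy2_sum {R : Type} [AddCommMonoid R] (f : El bl → R) :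
    ∑ E, f E = ∑ S, f (.inl S) + (∑ k, f (.inr (.inl k)) +
      (∑ i, f (.inr (.inr (.inl i))) + f (.inr (.inr (.inr ()))))) := by
  rw [Fintype.sum_sum_type, Fintype.sum_sum_type, Fintype.sum_sum_type]
  have h : ∑ u : Unit, f (.inr (.inr (.inr u))) = f (.inr (.inr (.inr ()))) :=
    Fintype.sum_unique _
  rw [h]

private theorem Sy2_sumNS (f : Sct bl → ℝ) :
    ∑ S : NS bl, f S.1 = ∑ s : Sct bl, if s.1.Nonempty then f s else 0 := by
  rw [← Finset.sum_filter]
  exact (Finset.sum_subtype _ (fun s => by simp) f).symm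

private theorem Sy2_NS (f : Sct bl → ℝ) (k : κ) :
    ∑ S : NS bl, (if k ∈ S.1.1 then f S.1 else 0) = ∑ s : Sct bl, if k ∈ s.1 then f s else 0 := by
  rw [Sy2_sumNS (fun s : Sct bl => if k ∈ s.1 then f s else 0)]
  refine Finset.sum_congr rfl fun s _ => ?_
  by_cases hk : k ∈ s.1
  · rw [if_pos ⟨k, hk⟩]
  · rw [if_neg hk, ite_self]

private theorem Sy2_vk (f : El bl → ℝ) (k : κ) : ∑ E, f E * (vF bl E (.inl k) : ℝ) =
    ∑ S : NS bl, (if k ∈ S.1.1 then f (.inl S) else 0) - f (.inr (.inl k)) := by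
  rw [Sy2_sum]
  have h1 : ∑ S : NS bl, f (.inl S) * ((vF bl (.inl S) (.inl k) : ℤ) : ℝ) =
      ∑ S : NS bl, (if k ∈ S.1.1 then f (.inl S) else 0) := by
    refine Finset.sum_congr rfl fun S _ => ?_
    have h2 : vF bl (.inl S) (.inl k) = if k ∈ S.1.1 then 1 else 0 := rfl
    rw [h2]
    by_cases hk : k ∈ S.1.1
    · rw [if_pos hk, if_pos hk, Int.cast_one, mul_one]
    · rw [if_neg hk, if_neg hk, Int.cast_zero, mul_zero]
  have h2 : ∑ k', f (.inr (.inl k')) * ((vF bl (.inr (.inl k')) (.inl k) : ℤ) : ℝ) =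
      -f (.inr (.inl k)) := by
    rw [Finset.sum_eq_single k]
    · have h6 : vF bl (.inr (.inl k)) (.inl k) = -1 := if_pos rfl
      rw [h6]
      push_cast
      ring
    · intro b _ hb
      have h6 : vF bl (.inr (.inl b)) (.inl k) = 0 := if_neg (fun h7 => hb h7.symm)
      rw [h6, Int.cast_zero, mul_zero]
    · intro h6
      exact absurd (Finset.mem_univ k) h6
  have h3 : ∑ i, f (.inr (.inr (.inl i))) *
      ((vF bl (.inr (.inr (.inl i))) (.inl k) : ℤ) : ℝ) = 0 := by
    refine Finset.sum_eq_zero fun i _ => ?_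
    have h7 : vF bl (.inr (.inr (.inl i))) (.inl k) = 0 := rfl
    rw [h7, Int.cast_zero, mul_zero]
  have h4 : f (.inr (.inr (.inr ()))) *
      ((vF bl (.inr (.inr (.inr ()))) (.inl k) : ℤ) : ℝ) = 0 := by
    have h8 : vF bl (.inr (.inr (.inr ()))) (.inl k) = 0 := rfl
    rw [h8, Int.cast_zero, mul_zero]
  rw [h1, h2, h3, h4]
  ring

private theorem Sy2_vi (f : El bl → ℝ) (i : Fin d) : ∑ E, f E * (vF bl E (.inr i) : ℝ) =
    ∑ k, (if bl k = i then f (.inr (.inl k)) else 0) + f (.inr (.inr (.inl i))) -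
      f (.inr (.inr (.inr ()))) := by
  rw [Sy2_sum]
  have h4 : ∑ S : NS bl, f (.inl S) * ((vF bl (.inl S) (.inr i) : ℤ) : ℝ) = 0 := by
    refine Finset.sum_eq_zero fun S _ => ?_
    have h7 : vF bl (.inl S) (.inr i) = 0 := rfl
    rw [h7, Int.cast_zero, mul_zero]
  have h5 : ∑ k, f (.inr (.inl k)) * ((vF bl (.inr (.inl k)) (.inr i) : ℤ) : ℝ) =
      ∑ k, (if bl k = i then f (.inr (.inl k)) else 0) := by
    refine Finset.sum_congr rfl fun k _ => ?_
    have h6 : vF bl (.inr (.inl k)) (.inr i) = if i = bl k then 1 else 0 := rfl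
    rw [h6]
    by_cases hk : bl k = i
    · rw [if_pos hk, if_pos hk.symm, Int.cast_one, mul_one]
    · rw [if_neg hk, if_neg (fun h8 => hk h8.symm), Int.cast_zero, mul_zero]
  have h6 : ∑ j, f (.inr (.inr (.inl j))) *
      ((vF bl (.inr (.inr (.inl j))) (.inr i) : ℤ) : ℝ) = f (.inr (.inr (.inl i))) := by
    rw [Finset.sum_eq_single i]
    · have h7 : vF bl (.inr (.inr (.inl i))) (.inr i) = 1 := if_pos rfl
      rw [h7, Int.cast_one, mul_one]
    · intro b _ hb
      have h7 : vF bl (.inr (.inr (.inl b))) (.inr i) = 0 := if_neg (fun h8 => hb h8.symm)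
      rw [h7, Int.cast_zero, mul_zero]
    · intro h7
      exact absurd (Finset.mem_univ i) h7
  have h7 : f (.inr (.inr (.inr ()))) *
      ((vF bl (.inr (.inr (.inr ()))) (.inr i) : ℤ) : ℝ) = -f (.inr (.inr (.inr ()))) := by
    have h8 : vF bl (.inr (.inr (.inr ()))) (.inr i) = -1 := rfl
    rw [h8]
    push_cast
    ring
  rw [h4, h5, h6, h7]
  ring

private theorem Sy2_pS (y : Un κ d → ℝ) (S : NS bl) :
    ∏ l, y l ^ eF bl (.inl S) l = ∏ k ∈ S.1.1, y (.inl k) := by
  rw [Fintype.prod_sum_type]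
  have h1 : ∏ k, y (.inl k) ^ eF bl (.inl S) (.inl k) = ∏ k ∈ S.1.1, y (.inl k) := by
    have h0 : ∏ k, (if k ∈ S.1.1 then y (.inl k) else 1) = ∏ k ∈ S.1.1, y (.inl k) := by
      rw [Finset.prod_ite_mem, Finset.univ_inter]
    rw [← h0]
    refine Finset.prod_congr rfl fun k _ => ?_
    have h2 : eF bl (.inl S) (.inl k) = if k ∈ S.1.1 then 1 else 0 := rfl
    rw [h2]
    by_cases hk : k ∈ S.1.1
    · rw [if_pos hk, if_pos hk, zpow_one]
    · rw [if_neg hk, if_neg hk, zpow_zero]
  have h2 : ∏ i, y (.inr i) ^ eF bl (.inl S) (.inr i) = 1 := by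
    refine Finset.prod_eq_one fun i _ => ?_
    have h3 : eF bl (.inl S) (.inr i) = 0 := rfl
    rw [h3, zpow_zero]
  rw [h1, h2, mul_one]

private theorem Sy2_pt (y : Un κ d → ℝ) (k : κ) :
    ∏ l, y l ^ eF bl (.inr (.inl k)) l = y (.inl k) ^ 2 * ∏ i ∈ {bl k}ᶜ, y (.inr i) := by
  rw [Fintype.prod_sum_type]
  have h1 : ∏ k', y (.inl k') ^ eF bl (.inr (.inl k)) (.inl k') = y (.inl k) ^ 2 := by
    rw [Finset.prod_eq_single k]
    · have h2 : eF bl (.inr (.inl k)) (.inl k) = 2 := if_pos rfl
      rw [h2]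
      exact zpow_natCast (y (.inl k)) 2
    · intro b _ hb
      have h2 : eF bl (.inr (.inl k)) (.inl b) = 0 := if_neg hb
      rw [h2, zpow_zero]
    · intro h2
      exact absurd (Finset.mem_univ k) h2
  have h2 : ∏ i, y (.inr i) ^ eF bl (.inr (.inl k)) (.inr i) = ∏ i ∈ {bl k}ᶜ, y (.inr i) := by
    rw [Fintype.prod_eq_mul_prod_compl (bl k)]
    have h3 : eF bl (.inr (.inl k)) (.inr (bl k)) = 0 := if_pos rfl
    rw [h3, zpow_zero, one_mul]
    refine Finset.prod_congr rfl fun i hi => ?_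
    rw [Finset.mem_compl, Finset.mem_singleton] at hi
    have h4 : eF bl (.inr (.inl k)) (.inr i) = 1 := if_neg hi
    rw [h4, zpow_one]
  rw [h1, h2]

private theorem Sy2_pu (y : Un κ d → ℝ) (i : Fin d) :
    ∏ l, y l ^ eF bl (.inr (.inr (.inl i))) l = ∏ j ∈ {i}ᶜ, y (.inr j) := by
  rw [Fintype.prod_sum_type]
  have h1 : ∏ k, y (.inl k) ^ eF bl (.inr (.inr (.inl i))) (.inl k) = 1 := by
    refine Finset.prod_eq_one fun k _ => ?_
    have h3 : eF bl (.inr (.inr (.inl i))) (.inl k) = 0 := rfl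
    rw [h3, zpow_zero]
  have h2 : ∏ j, y (.inr j) ^ eF bl (.inr (.inr (.inl i))) (.inr j) =
      ∏ j ∈ {i}ᶜ, y (.inr j) := by
    rw [Fintype.prod_eq_mul_prod_compl i]
    have h3 : eF bl (.inr (.inr (.inl i))) (.inr i) = 0 := if_pos rfl
    rw [h3, zpow_zero, one_mul]
    refine Finset.prod_congr rfl fun j hj => ?_
    rw [Finset.mem_compl, Finset.mem_singleton] at hj
    have h4 : eF bl (.inr (.inr (.inl i))) (.inr j) = 1 := if_neg hj
    rw [h4, zpow_one]
  rw [h1, h2, one_mul]

private theorem Sy2_pp (y : Un κ d → ℝ) :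
    ∏ l, y l ^ eF bl (.inr (.inr (.inr ()))) l = ∏ j, y (.inr j) := by
  rw [Fintype.prod_sum_type]
  have h1 : ∏ k, y (.inl k) ^ eF bl (.inr (.inr (.inr ()))) (.inl k) = 1 := by
    refine Finset.prod_eq_one fun k _ => ?_
    have h3 : eF bl (.inr (.inr (.inr ()))) (.inl k) = 0 := rfl
    rw [h3, zpow_zero]
  have h2 : ∏ j, y (.inr j) ^ eF bl (.inr (.inr (.inr ()))) (.inr j) = ∏ j, y (.inr j) := by
    refine Finset.prod_congr rfl fun j _ => ?_
    have h4 : eF bl (.inr (.inr (.inr ()))) (.inr j) = 1 := rfl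
    rw [h4, zpow_one]
  rw [h1, h2, one_mul]

private theorem Sy2_sS (η : Un κ d → ℝ) (S : NS bl) :
    ∑ l, (eF bl (.inl S) l : ℝ) * η l = ∑ k ∈ S.1.1, η (.inl k) := by
  rw [Fintype.sum_sum_type]
  have h1 : ∑ k, ((eF bl (.inl S) (.inl k) : ℤ) : ℝ) * η (.inl k) = ∑ k ∈ S.1.1, η (.inl k) := by
    have h0 : ∑ k, (if k ∈ S.1.1 then η (.inl k) else 0) = ∑ k ∈ S.1.1, η (.inl k) := by
      rw [Finset.sum_ite_mem, Finset.univ_inter]
    rw [← h0]
    refine Finset.sum_congr rfl fun k _ => ?_
    have h2 : eF bl (.inl S) (.inl k) = if k ∈ S.1.1 then 1 else 0 := rfl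
    rw [h2]
    by_cases hk : k ∈ S.1.1
    · rw [if_pos hk, if_pos hk, Int.cast_one, one_mul]
    · rw [if_neg hk, if_neg hk, Int.cast_zero, zero_mul]
  have h2 : ∑ i, ((eF bl (.inl S) (.inr i) : ℤ) : ℝ) * η (.inr i) = 0 := by
    refine Finset.sum_eq_zero fun i _ => ?_
    have h3 : eF bl (.inl S) (.inr i) = 0 := rfl
    rw [h3, Int.cast_zero, zero_mul]
  rw [h1, h2, add_zero]

private theorem Sy2_st (η : Un κ d → ℝ) (k : κ) :
    ∑ l, (eF bl (.inr (.inl k)) l : ℝ) * η l =
      2 * η (.inl k) + ∑ i ∈ {bl k}ᶜ, η (.inr i) := by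
  rw [Fintype.sum_sum_type]
  have h1 : ∑ k', ((eF bl (.inr (.inl k)) (.inl k') : ℤ) : ℝ) * η (.inl k') =
      2 * η (.inl k) := by
    rw [Finset.sum_eq_single k]
    · have h2 : eF bl (.inr (.inl k)) (.inl k) = 2 := if_pos rfl
      rw [h2]
      push_cast
      rfl
    · intro b _ hb
      have h2 : eF bl (.inr (.inl k)) (.inl b) = 0 := if_neg hb
      rw [h2, Int.cast_zero, zero_mul]
    · intro h2
      exact absurd (Finset.mem_univ k) h2
  have h2 : ∑ i, ((eF bl (.inr (.inl k)) (.inr i) : ℤ) : ℝ) * η (.inr i) =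
      ∑ i ∈ {bl k}ᶜ, η (.inr i) := by
    rw [Fintype.sum_eq_add_sum_compl (bl k)]
    have h3 : eF bl (.inr (.inl k)) (.inr (bl k)) = 0 := if_pos rfl
    rw [h3, Int.cast_zero, zero_mul, zero_add]
    refine Finset.sum_congr rfl fun i hi => ?_
    rw [Finset.mem_compl, Finset.mem_singleton] at hi
    have h4 : eF bl (.inr (.inl k)) (.inr i) = 1 := if_neg hi
    rw [h4, Int.cast_one, one_mul]
  rw [h1, h2]

private theorem Sy2_su (η : Un κ d → ℝ) (i : Fin d) :
    ∑ l, (eF bl (.inr (.inr (.inl i))) l : ℝ) * η l = ∑ j ∈ {i}ᶜ, η (.inr j) := by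
  rw [Fintype.sum_sum_type]
  have h1 : ∑ k, ((eF bl (.inr (.inr (.inl i))) (.inl k) : ℤ) : ℝ) * η (.inl k) = 0 := by
    refine Finset.sum_eq_zero fun k _ => ?_
    have h3 : eF bl (.inr (.inr (.inl i))) (.inl k) = 0 := rfl
    rw [h3, Int.cast_zero, zero_mul]
  have h2 : ∑ j, ((eF bl (.inr (.inr (.inl i))) (.inr j) : ℤ) : ℝ) * η (.inr j) =
      ∑ j ∈ {i}ᶜ, η (.inr j) := by
    rw [Fintype.sum_eq_add_sum_compl i]
    have h3 : eF bl (.inr (.inr (.inl i))) (.inr i) = 0 := if_pos rfl
    rw [h3, Int.cast_zero, zero_mul, zero_add]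
    refine Finset.sum_congr rfl fun j hj => ?_
    rw [Finset.mem_compl, Finset.mem_singleton] at hj
    have h4 : eF bl (.inr (.inr (.inl i))) (.inr j) = 1 := if_neg hj
    rw [h4, Int.cast_one, one_mul]
  rw [h1, h2, zero_add]

private theorem Sy2_sp (η : Un κ d → ℝ) :
    ∑ l, (eF bl (.inr (.inr (.inr ()))) l : ℝ) * η l = ∑ j, η (.inr j) := by
  rw [Fintype.sum_sum_type]
  have h1 : ∑ k, ((eF bl (.inr (.inr (.inr ()))) (.inl k) : ℤ) : ℝ) * η (.inl k) = 0 := by
    refine Finset.sum_eq_zero fun k _ => ?_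
    have h3 : eF bl (.inr (.inr (.inr ()))) (.inl k) = 0 := rfl
    rw [h3, Int.cast_zero, zero_mul]
  have h2 : ∑ j, ((eF bl (.inr (.inr (.inr ()))) (.inr j) : ℤ) : ℝ) * η (.inr j) =
      ∑ j, η (.inr j) := by
    refine Finset.sum_congr rfl fun j _ => ?_
    have h4 : eF bl (.inr (.inr (.inr ()))) (.inr j) = 1 := rfl
    rw [h4, Int.cast_one, one_mul]
  rw [h1, h2, zero_add]

/-- The relation of the block `i`. -/
private theorem Sy2_ri {c : Sct bl → ℝ} {y : Un κ d → ℝ} (h0 : ∀ l, y l ≠ 0)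
    (h : ∀ ρ, ∑ E, cF c E * (∏ l, y l ^ eF bl E l) * (vF bl E ρ : ℝ) = 0) (i : Fin d) :
    sq bl (fun k => y (.inl k)) i = y (.inr i) := by
  have h1 := h (.inr i)
  rw [Sy2_vi (fun E => cF c E * (∏ l, y l ^ eF bl E l))] at h1
  have hP : ∏ j ∈ {i}ᶜ, y (.inr j) ≠ 0 := Finset.prod_ne_zero_iff.2 fun j _ => h0 _
  have h2 : ∑ k, (if bl k = i then cF c (.inr (.inl k)) *
      (∏ l, y l ^ eF bl (.inr (.inl k)) l) else 0) =
      (∑ k, if bl k = i then y (.inl k) ^ 2 else 0) * ∏ j ∈ {i}ᶜ, y (.inr j) := by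
    rw [Finset.sum_mul]
    refine Finset.sum_congr rfl fun k _ => ?_
    by_cases hk : bl k = i
    · rw [if_pos hk, if_pos hk, Sy2_pt, hk]
      exact one_mul _
    · rw [if_neg hk, if_neg hk, zero_mul]
  have h3 : cF c (.inr (.inr (.inl i))) * (∏ l, y l ^ eF bl (.inr (.inr (.inl i))) l) =
      ∏ j ∈ {i}ᶜ, y (.inr j) := by
    rw [Sy2_pu]
    exact one_mul _
  have h4 : cF c (.inr (.inr (.inr ()))) * (∏ l, y l ^ eF bl (.inr (.inr (.inr ()))) l) =
      y (.inr i) * ∏ j ∈ {i}ᶜ, y (.inr j) := by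
    rw [Sy2_pp, Fintype.prod_eq_mul_prod_compl i]
    exact one_mul _
  rw [h2, h3, h4] at h1
  have h5 : (1 + (∑ k, if bl k = i then y (.inl k) ^ 2 else 0) - y (.inr i)) *
      ∏ j ∈ {i}ᶜ, y (.inr j) = 0 := by linear_combination h1
  have h6 := (mul_eq_zero.1 h5).resolve_right hP
  unfold MPb0eQ.sq
  linarith

/-- The sum over the monomials containing `k`. -/
private theorem Sy2_dS (c : Sct bl → ℝ) (x : κ → ℝ) (k : κ) :
    ∑ s : Sct bl, (if k ∈ s.1 then c s * ∏ l ∈ s.1, x l else 0) = x k * dS bl c x {k} := by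
  unfold MPb0eQ.dS
  rw [Finset.mul_sum]
  refine Finset.sum_congr rfl fun s _ => ?_
  by_cases hk : k ∈ s.1
  · rw [if_pos hk, if_pos (Finset.singleton_subset_iff.2 hk), ← Finset.mul_prod_erase _ _ hk,
      Finset.sdiff_singleton_eq_erase]
    ring
  · rw [if_neg hk, if_neg (fun h5 => hk (Finset.singleton_subset_iff.1 h5)), mul_zero]

/-- From the relations to the critical equations. Proof: the relation of `i` divided by the product
of the `y (.inr j)`, `j ≠ i`, gives `y (.inr i) = sq bl x i` for `x k = y (.inl k)`; the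
relation of `k` divided by `x k` is `G bl c x k = 0`. -/
theorem G_of_rel {c : Sct bl → ℝ} {y : Un κ d → ℝ} (h0 : ∀ l, y l ≠ 0)
    (h : ∀ ρ, ∑ E, cF c E * (∏ l, y l ^ eF bl E l) * (vF bl E ρ : ℝ) = 0) :
    G bl c (fun k => y (.inl k)) = 0 ∧ ∀ i, sq bl (fun k => y (.inl k)) i = y (.inr i) := by
  have hs := Sy2_ri h0 h
  refine ⟨?_, hs⟩
  funext k
  have h1 := h (.inl k)
  rw [Sy2_vk (fun E => cF c E * (∏ l, y l ^ eF bl E l))] at h1
  have h2 : ∑ S : NS bl, (if k ∈ S.1.1 then cF c (.inl S) *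
      (∏ l, y l ^ eF bl (.inl S) l) else 0) = y (.inl k) * dS bl c (fun k => y (.inl k)) {k} := by
    refine Eq.trans ?_ (Sy2_dS c (fun k => y (.inl k)) k)
    rw [← Sy2_NS (fun s : Sct bl => c s * ∏ l ∈ s.1, y (.inl l)) k]
    refine Finset.sum_congr rfl fun S _ => ?_
    rw [Sy2_pS]
    rfl
  have h3 : cF c (.inr (.inl k)) * (∏ l, y l ^ eF bl (.inr (.inl k)) l) =
      y (.inl k) ^ 2 * PA bl (fun k => y (.inl k)) {bl k} := by
    rw [Sy2_pt]
    unfold MPb0eQ.PA
    rw [Finset.prod_congr rfl fun i _ => hs i]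
    exact one_mul _
  rw [h2, h3] at h1
  have h4 : y (.inl k) * (y (.inl k) * PA bl (fun k => y (.inl k)) {bl k} -
      dS bl c (fun k => y (.inl k)) {k}) = 0 := by linear_combination -h1
  exact (mul_eq_zero.1 h4).resolve_left (h0 _)

/-- Nondegeneracy. Proof: for `v` in the kernel of the Hessian put `η (.inl k) = v k / x k` and
`η (.inr i) = 2 * ∑ k in block i, x k * v k / sq bl x i`; the linearised relations hold. -/
theorem Hv_of_ND {c : Sct bl → ℝ} {y : Un κ d → ℝ} (h0 : ∀ l, y l ≠ 0)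
    (h : ∀ ρ, ∑ E, cF c E * (∏ l, y l ^ eF bl E l) * (vF bl E ρ : ℝ) = 0)
    (hN : ND (vF bl) (eF bl) fun E => cF c E * ∏ l, y l ^ eF bl E l) (v : κ → ℝ)
    (hv : Hv bl c (fun k => y (.inl k)) v = 0) : v = 0 := by
  obtain ⟨hG, hs⟩ := G_of_rel h0 h
  obtain ⟨x, hx⟩ : ∃ x : κ → ℝ, x = fun k => y (.inl k) := ⟨_, rfl⟩
  have hxk : ∀ k, y (.inl k) = x k := fun k => by rw [hx]
  rw [← hx] at hG hs hv
  have hx0 : ∀ k, x k ≠ 0 := fun k => by rw [← hxk]; exact h0 _
  have hs0 : ∀ i, sq bl x i ≠ 0 := fun i => by rw [hs]; exact h0 _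
  let η : Un κ d → ℝ := fun l => match l with
    | .inl k => v k / x k
    | .inr i => 2 * (∑ k, if bl k = i then x k * v k else 0) / sq bl x i
  have hηk : ∀ k, η (.inl k) = v k / x k := fun _ => rfl
  have hηi : ∀ i, η (.inr i) = 2 * (∑ k, if bl k = i then x k * v k else 0) / sq bl x i :=
    fun _ => rfl
  have hη : η = 0 := by
    apply hN
    rintro (k | i)
    · rw [Sy2_vk (fun E => cF c E * (∏ l, y l ^ eF bl E l) * ∑ l, (eF bl E l : ℝ) * η l)]
      have h1 : ∑ S : NS bl, (if k ∈ S.1.1 then cF c (.inl S) *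
          (∏ l, y l ^ eF bl (.inl S) l) * (∑ l, (eF bl (.inl S) l : ℝ) * η l) else 0) =
          v k * dS bl c x {k} + x k * ∑ l, if l = k then 0 else v l * dS bl c x {k, l} := by
        have h2 : ∑ S : NS bl, (if k ∈ S.1.1 then cF c (.inl S) *
            (∏ l, y l ^ eF bl (.inl S) l) * (∑ l, (eF bl (.inl S) l : ℝ) * η l) else 0) =
            ∑ s : Sct bl, if k ∈ s.1 then
              (c s * (∏ l ∈ s.1, x l) * ∑ l ∈ s.1, v l / x l) else 0 := by
          rw [← Sy2_NS (fun s : Sct bl => c s * (∏ l ∈ s.1, x l) * ∑ l ∈ s.1, v l / x l) k]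
          refine Finset.sum_congr rfl fun S _ => ?_
          rw [Sy2_pS, Sy2_sS]
          rw [Finset.prod_congr rfl fun l _ => hxk l]
          rfl
        rw [h2]
        have h3 : ∑ s : Sct bl, (if k ∈ s.1 then
            (c s * (∏ l ∈ s.1, x l) * ∑ l ∈ s.1, v l / x l) else 0) =
            ∑ l, ∑ s : Sct bl, if k ∈ s.1 ∧ l ∈ s.1 then
              c s * (∏ l ∈ s.1, x l) * (v l / x l) else 0 := by
          rw [Finset.sum_comm]
          refine Finset.sum_congr rfl fun s _ => ?_
          by_cases hk : k ∈ s.1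
          · rw [if_pos hk, Finset.mul_sum]
            have h4 : ∑ l ∈ s.1, c s * (∏ l ∈ s.1, x l) * (v l / x l) =
                ∑ l, if l ∈ s.1 then c s * (∏ l ∈ s.1, x l) * (v l / x l) else 0 := by
              rw [Finset.sum_ite_mem, Finset.univ_inter]
            rw [h4]
            refine Finset.sum_congr rfl fun l _ => ?_
            by_cases hl : l ∈ s.1
            · rw [if_pos hl, if_pos ⟨hk, hl⟩]
            · rw [if_neg hl, if_neg (fun h5 => hl h5.2)]
          · rw [if_neg hk]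
            refine (Finset.sum_eq_zero fun l _ => ?_).symm
            rw [if_neg (fun h5 => hk h5.1)]
        rw [h3, Fintype.sum_eq_add_sum_compl k]
        have h4 : ∑ s : Sct bl, (if k ∈ s.1 ∧ k ∈ s.1 then
            c s * (∏ l ∈ s.1, x l) * (v k / x k) else 0) = v k * dS bl c x {k} := by
          have h5 : ∑ s : Sct bl, (if k ∈ s.1 ∧ k ∈ s.1 then
              c s * (∏ l ∈ s.1, x l) * (v k / x k) else 0) =
              (∑ s : Sct bl, if k ∈ s.1 then c s * ∏ l ∈ s.1, x l else 0) * (v k / x k) := by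
            rw [Finset.sum_mul]
            refine Finset.sum_congr rfl fun s _ => ?_
            by_cases hk : k ∈ s.1
            · rw [if_pos hk, if_pos ⟨hk, hk⟩]
            · rw [if_neg hk, if_neg (fun h6 => hk h6.1), zero_mul]
          rw [h5, Sy2_dS]
          field_simp [hx0 k]
        have h5 : ∑ l ∈ {k}ᶜ, ∑ s : Sct bl, (if k ∈ s.1 ∧ l ∈ s.1 then
            c s * (∏ l ∈ s.1, x l) * (v l / x l) else 0) =
            x k * ∑ l, if l = k then 0 else v l * dS bl c x {k, l} := by
          rw [Fintype.sum_eq_add_sum_compl k, if_pos rfl, zero_add, Finset.mul_sum]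
          refine Finset.sum_congr rfl fun l hl => ?_
          rw [Finset.mem_compl, Finset.mem_singleton] at hl
          rw [if_neg hl]
          unfold MPb0eQ.dS
          rw [Finset.mul_sum, Finset.mul_sum]
          refine Finset.sum_congr rfl fun s _ => ?_
          by_cases hkl : k ∈ s.1 ∧ l ∈ s.1
          · have h6 : ({k, l} : Finset κ) ⊆ s.1 := by
              intro a ha
              rcases Finset.mem_insert.1 ha with rfl | ha
              · exact hkl.1
              · rw [Finset.mem_singleton.1 ha]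
                exact hkl.2
            rw [if_pos hkl, if_pos h6]
            have h7 : ∏ a ∈ s.1, x a = x k * x l * ∏ a ∈ s.1 \ {k, l}, x a := by
              rw [← Finset.prod_sdiff h6, Finset.prod_pair (Ne.symm hl)]
              ring
            rw [h7]
            field_simp [hx0 l]
          · have h6 : ¬ ({k, l} : Finset κ) ⊆ s.1 := fun h7 =>
              hkl ⟨h7 (Finset.mem_insert_self _ _),
                h7 (Finset.mem_insert_of_mem (Finset.mem_singleton_self _))⟩
            rw [if_neg hkl, if_neg h6, mul_zero, mul_zero]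
        rw [h4, h5]
      have h2 : cF c (.inr (.inl k)) * (∏ l, y l ^ eF bl (.inr (.inl k)) l) *
          (∑ l, (eF bl (.inr (.inl k)) l : ℝ) * η l) =
          2 * x k * v k * PA bl x {bl k} + x k * ∑ l, if bl l = bl k then 0 else
            2 * x k * x l * PA bl x {bl k, bl l} * v l := by
        rw [Sy2_pt, Sy2_st, hηk, hxk]
        have h3 : ∏ i ∈ {bl k}ᶜ, y (.inr i) = PA bl x {bl k} := by
          unfold MPb0eQ.PA
          exact Finset.prod_congr rfl fun i _ => (hs i).symm
        rw [h3]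
        have h4 : PA bl x {bl k} * ∑ i ∈ {bl k}ᶜ, η (.inr i) =
            ∑ l, if bl l = bl k then 0 else 2 * x l * PA bl x {bl k, bl l} * v l := by
          have h5 : ∀ i ∈ ({bl k} : Finset (Fin d))ᶜ, PA bl x {bl k} * η (.inr i) =
              ∑ l, if bl l = i then 2 * x l * PA bl x {bl k, bl l} * v l else 0 := by
            intro i hi
            have hi' := hi
            rw [Finset.mem_compl, Finset.mem_singleton] at hi'
            have h6 : PA bl x {bl k} = sq bl x i * PA bl x {bl k, i} := by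
              unfold MPb0eQ.PA
              rw [← Finset.mul_prod_erase _ _ hi]
              congr 1
              refine Finset.prod_congr ?_ fun _ _ => rfl
              ext j
              simp only [Finset.mem_erase, Finset.mem_compl, Finset.mem_singleton,
                Finset.mem_insert]
              tauto
            rw [hηi, h6]
            have h7 : sq bl x i * PA bl x {bl k, i} *
                (2 * (∑ k, if bl k = i then x k * v k else 0) / sq bl x i) =
                (∑ k, if bl k = i then x k * v k else 0) * (2 * PA bl x {bl k, i}) := by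
              field_simp [hs0 i]
            rw [h7, Finset.sum_mul]
            refine Finset.sum_congr rfl fun l _ => ?_
            by_cases hl : bl l = i
            · rw [if_pos hl, if_pos hl, hl]
              ring
            · rw [if_neg hl, if_neg hl, zero_mul]
          rw [Finset.mul_sum, Finset.sum_congr rfl h5, Finset.sum_comm]
          refine Finset.sum_congr rfl fun l _ => ?_
          by_cases hl : bl l = bl k
          · rw [if_pos hl]
            refine Finset.sum_eq_zero fun i hi => ?_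
            rw [Finset.mem_compl, Finset.mem_singleton] at hi
            rw [if_neg (fun h8 => hi (by rw [← h8, hl]))]
          · rw [if_neg hl, Finset.sum_eq_single (bl l)]
            · rw [if_pos rfl]
            · intro i _ hi
              rw [if_neg (fun h8 => hi h8.symm)]
            · intro h8
              rw [Finset.mem_compl, Finset.mem_singleton] at h8
              exact absurd hl h8
        have h5 : (x k * ∑ l, if bl l = bl k then 0 else
            2 * x k * x l * PA bl x {bl k, bl l} * v l) = x k ^ 2 *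
            ∑ l, if bl l = bl k then 0 else 2 * x l * PA bl x {bl k, bl l} * v l := by
          rw [Finset.mul_sum, Finset.mul_sum]
          refine Finset.sum_congr rfl fun l _ => ?_
          by_cases hl : bl l = bl k
          · rw [if_pos hl, if_pos hl, mul_zero, mul_zero]
          · rw [if_neg hl, if_neg hl]
            ring
        rw [h5, ← h4]
        have h6 : cF c (.inr (.inl k)) = 1 := rfl
        rw [h6]
        have h7 := hx0 k
        field_simp
      rw [h1, h2]
      have h3 : dS bl c x {k} = x k * PA bl x {bl k} := by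
        have h4 := congrFun hG k
        unfold MPb0eQ.G at h4
        have h5 : x k * PA bl x {bl k} - dS bl c x {k} = 0 := h4
        linarith
      have h4 : Hv bl c x v k = PA bl x {bl k} * v k + ∑ l, (if bl l = bl k then 0 else
          (2 * x k * x l * PA bl x {bl k, bl l} - dS bl c x {k, l}) * v l) := by
        unfold MPb0eQ.Hv
        rw [Fintype.sum_eq_add_sum_compl k,
          Fintype.sum_eq_add_sum_compl k (fun l => if bl l = bl k then 0 else
          (2 * x k * x l * PA bl x {bl k, bl l} - dS bl c x {k, l}) * v l), if_pos rfl, zero_add]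
        have h5 : MPb0eQ.H bl c x k k = PA bl x {bl k} := by
          unfold MPb0eQ.H
          rw [if_pos rfl, if_pos rfl]
        rw [h5]
        congr 1
        refine Finset.sum_congr rfl fun l hl => ?_
        rw [Finset.mem_compl, Finset.mem_singleton] at hl
        unfold MPb0eQ.H
        by_cases hb : bl k = bl l
        · rw [if_pos hb, if_neg (Ne.symm hl), if_pos hb.symm, zero_mul]
        · rw [if_neg hb, if_neg (fun h6 => hb h6.symm)]
      have h5 : Hv bl c x v k = 0 := by
        rw [hv]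
        rfl
      have h6 : ∀ l, l ≠ k → bl l = bl k → dS bl c x {k, l} = 0 := by
        intro l hl hb
        unfold MPb0eQ.dS
        refine Finset.sum_eq_zero fun s _ => ?_
        rw [if_neg]
        intro h7
        exact hl (s.2 l (h7 (Finset.mem_insert_of_mem (Finset.mem_singleton_self _))) k
          (h7 (Finset.mem_insert_self _ _)) hb)
      have h7 : ∑ l, (if bl l = bl k then 0 else
          (2 * x k * x l * PA bl x {bl k, bl l} - dS bl c x {k, l}) * v l) =
          (∑ l, if bl l = bl k then 0 else 2 * x k * x l * PA bl x {bl k, bl l} * v l) -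
          ∑ l, if l = k then 0 else v l * dS bl c x {k, l} := by
        rw [← Finset.sum_sub_distrib]
        refine Finset.sum_congr rfl fun l _ => ?_
        by_cases hl : l = k
        · rw [if_pos (by rw [hl]), if_pos (by rw [hl]), if_pos hl, sub_zero]
        · by_cases hb : bl l = bl k
          · rw [if_pos hb, if_pos hb, if_neg hl, h6 l hl hb, mul_zero, sub_zero]
          · rw [if_neg hb, if_neg hb, if_neg hl]
            ring
      rw [h4, h7] at h5
      rw [h3]
      linear_combination (-x k) * h5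
    · rw [Sy2_vi (fun E => cF c E * (∏ l, y l ^ eF bl E l) * ∑ l, (eF bl E l : ℝ) * η l)]
      obtain ⟨P, hP⟩ : ∃ P : ℝ, P = ∏ j ∈ {i}ᶜ, y (.inr j) := ⟨_, rfl⟩
      obtain ⟨N, hNN⟩ : ∃ N : ℝ, N = ∑ j ∈ {i}ᶜ, η (.inr j) := ⟨_, rfl⟩
      have h1 : ∑ k, (if bl k = i then cF c (.inr (.inl k)) *
          (∏ l, y l ^ eF bl (.inr (.inl k)) l) *
          (∑ l, (eF bl (.inr (.inl k)) l : ℝ) * η l) else 0) =
          P * (2 * (∑ k, if bl k = i then x k * v k else 0) +
            N * ∑ k, if bl k = i then x k ^ 2 else 0) := by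
        rw [mul_add, ← mul_assoc, Finset.mul_sum, Finset.mul_sum, Finset.mul_sum,
          ← Finset.sum_add_distrib]
        refine Finset.sum_congr rfl fun k _ => ?_
        by_cases hk : bl k = i
        · rw [if_pos hk, if_pos hk, if_pos hk, Sy2_pt, Sy2_st, hηk, hxk, hk, ← hP, ← hNN]
          have h6 : cF c (.inr (.inl k)) = 1 := rfl
          have h7 := hx0 k
          rw [h6]
          field_simp
        · rw [if_neg hk, if_neg hk, if_neg hk, mul_zero, mul_zero, mul_zero, add_zero]
      have h2 : cF c (.inr (.inr (.inl i))) * (∏ l, y l ^ eF bl (.inr (.inr (.inl i))) l) *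
          (∑ l, (eF bl (.inr (.inr (.inl i))) l : ℝ) * η l) = P * N := by
        rw [Sy2_pu, Sy2_su, ← hP, ← hNN]
        have h6 : cF c (.inr (.inr (.inl i))) = 1 := rfl
        rw [h6, one_mul]
      have h3 : cF c (.inr (.inr (.inr ()))) * (∏ l, y l ^ eF bl (.inr (.inr (.inr ()))) l) *
          (∑ l, (eF bl (.inr (.inr (.inr ()))) l : ℝ) * η l) =
          sq bl x i * P * (η (.inr i) + N) := by
        rw [Sy2_pp, Sy2_sp, Fintype.prod_eq_mul_prod_compl i, Fintype.sum_eq_add_sum_compl i,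
          ← hP, ← hNN, ← hs]
        have h6 : cF c (.inr (.inr (.inr ()))) = 1 := rfl
        rw [h6, one_mul]
      rw [h1, h2, h3, hηi]
      have h4 : sq bl x i = 1 + ∑ k, if bl k = i then x k ^ 2 else 0 := rfl
      have h5 : sq bl x i * (2 * (∑ k, if bl k = i then x k * v k else 0) / sq bl x i) =
          2 * ∑ k, if bl k = i then x k * v k else 0 := by
        field_simp [hs0 i]
      linear_combination (-P * N) * h4 - P * h5
  funext k
  have h1 : η (.inl k) = 0 := by
    rw [hη]
    rfl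
  rw [hηk, div_eq_zero_iff] at h1
  exact h1.resolve_right (hx0 k)

end Pool.Agent.MPb0eF
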