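import Pool.Agent.Lib.MP_b0e20b_ag_G.Ro

/-!
# MP_b0e20b_ag, project G: real leading points
-/

set_option autoImplicit false

open scoped BigOperators Topology

namespace Pool.Agent.MPb0eF

variable {Ω Λ Ρ : Type} [Fintype Ω] [Fintype Λ] [Fintype Ρ] [DecidableEq Λ] {vec : Ω → Ρ → ℤ}
  {ex : Ω → Λ → ℤ} {h : Ω → ℝ} {k : Ω → ℝ} {w : Λ → ℝ} {mo : Ω → Bool}

private theorem Tl_lsum {Ω R : Type} [Fintype Ω] [CommRing R] {lev : Ω → ℕ} {c : Ω → ℤ}
    (hc : BSum lev c) {f : Ω → R} (hf : ∀ E E', lev E = lev E' → f E = f E') :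
    ∑ E, (c E : R) * f E = 0 := by
  classical
  rw [← Finset.sum_fiberwise_of_maps_to (t := Finset.univ.image lev)
    (fun E _ => Finset.mem_image_of_mem lev (Finset.mem_univ E)) (fun E => (c E : R) * f E)]
  refine Finset.sum_eq_zero fun j hj => ?_
  obtain ⟨E₀, -, hE₀⟩ := Finset.mem_image.1 hj
  have h1 : ∀ E ∈ Finset.univ.filter (fun E => lev E = j), (c E : R) * f E = (c E : R) * f E₀ := by
    intro E hE
    rw [hf E E₀ ((Finset.mem_filter.1 hE).2.trans hE₀.symm)]
  rw [Finset.sum_congr rfl h1, ← Finset.sum_mul, ← Int.cast_sum, Finset.sum_filter, hc j,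
    Int.cast_zero, zero_mul]

omit [Fintype Ρ] [DecidableEq Λ] in
private theorem Tl_zero {lev : Ω → ℕ} (hg : Gen h ex) (hl : Lev h ex w lev) {c : Ω → ℤ}
    (hc : BSum lev c) (he : ∀ l, ∑ E, c E * ex E l = 0) : c = 0 := by
  refine hg c ?_ he ?_
  · have h1 := Tl_lsum (R := ℤ) hc (f := fun _ => 1) fun _ _ _ => rfl
    simpa using h1
  · have h1 := Tl_lsum (R := ℝ) hc (f := val h ex w) hl.1
    have h2 : ∑ E, (c E : ℝ) * val h ex w E = ∑ E, (c E : ℝ) * h E +
        ∑ l, ((∑ E, c E * ex E l : ℤ) : ℝ) * w l := by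
      unfold val
      simp only [mul_add, Finset.sum_add_distrib]
      congr 1
      simp only [Finset.mul_sum]
      rw [Finset.sum_comm]
      refine Finset.sum_congr rfl fun l _ => ?_
      push_cast
      rw [Finset.sum_mul]
      exact Finset.sum_congr rfl fun E _ => by ring
    rw [h2] at h1
    simpa [he] using h1

private theorem Tl_zsum {ι R : Type} [Field R] (s : Finset ι) {a : R} (ha : a ≠ 0) (c : ι → ℤ) :
    ∏ i ∈ s, a ^ c i = a ^ (∑ i ∈ s, c i) := by
  classical
  induction s using Finset.induction_on with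
  | empty => simp
  | insert i s hi ih =>
    rw [Finset.prod_insert hi, Finset.sum_insert hi, ih, zpow_add₀ ha]

/-- The leading coefficients are real up to a factor for every level. -/
private theorem Tl_split {lev : Ω → ℕ} {ζ : Ω → ℂ} (h0 : ∀ E, ζ E ≠ 0)
    (hR : ∀ j, InR vec lev j ζ) (hU : Uq vec lev ζ) : ∃ (μ : ℕ → ℂ) (r : Ω → ℝ),
      (∀ E, r E ≠ 0) ∧ ∀ E, ζ E = μ (lev E) * (r E : ℂ) := by
  classical
  obtain ⟨μ, hμ⟩ : ∃ μ : ℕ → ℂ, ∀ E, ∃ E0, lev E0 = lev E ∧ μ (lev E) = ζ E0 := by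
    refine ⟨fun j => if hj : ∃ E, lev E = j then ζ hj.choose else 1, fun E => ?_⟩
    have hj : ∃ E', lev E' = lev E := ⟨E, rfl⟩
    exact ⟨hj.choose, hj.choose_spec, dif_pos hj⟩
  refine ⟨μ, fun E => (ζ E / μ (lev E)).re, fun E => ?_, fun E => ?_⟩ <;>
    obtain ⟨E0, h1, h2⟩ := hμ E
  · have h3 := Complex.conj_eq_iff_im.1 (ratio_real h0 hU hR h1)
    change (ζ E / μ (lev E)).re ≠ 0
    rw [h2]
    intro h4
    exact div_ne_zero (h0 E) (h0 E0) (Complex.ext h4 h3)
  · have h3 := Complex.conj_eq_iff_im.1 (ratio_real h0 hU hR h1)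
    have h4 : ζ E / μ (lev E) = ((ζ E / μ (lev E)).re : ℂ) :=
      Complex.ext rfl (by rw [h2, h3, Complex.ofReal_im])
    change ζ E = μ (lev E) * ((ζ E / μ (lev E)).re : ℂ)
    rw [← h4, h2, mul_div_cancel₀ _ (h0 E0)]

/-- The real leading point with the coordinate `t` at `l0`. -/
private theorem Tl_sol {k' : Ω → ℝ} (hk : ∀ E, k' E ≠ 0) (hg : Gen h ex) {lev : Ω → ℕ}
    {ζ : Ω → ℂ} {l0 : Λ} {m : ℕ} (hl : Lev h ex w lev) (h0 : ∀ E, ζ E ≠ 0)
    (hR : ∀ j, InR vec lev j ζ) (hU : Uq vec lev ζ) (hS : Sp ex lev) (hC : Cyc ex lev mo l0 m)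
    {μ : ℕ → ℂ} {r : Ω → ℝ} (hr : ∀ E, r E ≠ 0) (hζ : ∀ E, ζ E = μ (lev E) * (r E : ℂ))
    {c0 : Ω → ℤ} (hc0 : BSum lev c0)
    (he0 : ∀ l, ∑ E, c0 E * ex E l = if l = l0 then (m : ℤ) else 0) {t : ℝ}
    (ht : t ^ m = ∏ E, (r E / k' E) ^ c0 E) :
    ∃ y : Λ → ℝ, y l0 = t ∧ FD vec ex h k' w fun l => (y l : ℂ) := by
  classical
  obtain ⟨ρ, hρ⟩ : ∃ ρ : Ω → ℝ, ρ = fun E => r E / k' E := ⟨_, rfl⟩
  have hρ0 : ∀ E, ρ E ≠ 0 := fun E => by
    rw [hρ]
    exact div_ne_zero (hr E) (hk E)
  have ht' : t ^ m = ∏ E, ρ E ^ c0 E := by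
    rw [ht, hρ]
  have hm := hC.pos
  have t0 : t ≠ 0 := by
    rintro rfl
    rw [zero_pow (by omega)] at ht'
    exact (Finset.prod_ne_zero_iff.2 fun E _ => zpow_ne_zero _ (hρ0 E)) ht'.symm
  have hex : ∀ l, ∃ (a : ℤ) (c : Ω → ℤ), BSum lev c ∧ (∀ l', ∑ E, c E * ex E l' =
      (if l' = l then 1 else 0) - a * if l' = l0 then 1 else 0) ∧ (l = l0 → a = 1 ∧ c = 0) := by
    intro l
    by_cases h1 : l = l0
    · subst h1
      refine ⟨1, 0, fun j => by simp, fun l' => by simp, fun _ => ⟨rfl, rfl⟩⟩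
    · obtain ⟨a, c, h2, h3⟩ := hC.gen l
      exact ⟨a, c, h2, h3, fun h4 => absurd h4 h1⟩
  choose a c hb he hac using hex
  obtain ⟨y, hy⟩ : ∃ y : Λ → ℝ, y = fun l => (∏ E, ρ E ^ c l E) * t ^ a l := ⟨_, rfl⟩
  have hy0 : ∀ l, y l ≠ 0 := fun l => by
    rw [hy]
    exact mul_ne_zero (Finset.prod_ne_zero_iff.2 fun E _ => zpow_ne_zero _ (hρ0 E))
      (zpow_ne_zero _ t0)
  obtain ⟨f, hf1, hf2⟩ := hC.inv
  -- the divisibility
  have hdiv : ∀ e : Ω → ℤ, BSum lev e → (m : ℤ) ∣ ∑ l, (∑ E, e E * ex E l) * f l := by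
    intro e hb'
    have h1 := Tl_lsum (R := ZMod m) hb' (f := fun E => ((∑ l, ex E l * f l : ℤ) : ZMod m))
      fun E E' hE => by
        have h2 := hf2 E E' hE
        rw [← ZMod.intCast_zmod_eq_zero_iff_dvd] at h2
        have h3 : ∑ l, (ex E l - ex E' l) * f l = ∑ l, ex E l * f l - ∑ l, ex E' l * f l := by
          rw [← Finset.sum_sub_distrib]
          exact Finset.sum_congr rfl fun l _ => by ring
        rw [h3, Int.cast_sub] at h2
        exact sub_eq_zero.1 h2
    rw [← ZMod.intCast_zmod_eq_zero_iff_dvd, ← h1]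
    have h2 : ∑ l, (∑ E, e E * ex E l) * f l = ∑ E, e E * ∑ l, ex E l * f l := by
      simp only [Finset.sum_mul, Finset.mul_sum]
      rw [Finset.sum_comm]
      exact Finset.sum_congr rfl fun E _ => Finset.sum_congr rfl fun l _ => by ring
    rw [h2]
    push_cast
    rfl
  -- the values on the lattice
  have key : ∀ e : Ω → ℤ, BSum lev e →
      ∏ l, y l ^ (∑ E, e E * ex E l) = ∏ E, ρ E ^ e E := by
    intro e hb'
    obtain ⟨v, hv⟩ : ∃ v : Λ → ℤ, v = fun l => ∑ E, e E * ex E l := ⟨_, rfl⟩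
    obtain ⟨e', he'⟩ : ∃ e' : Ω → ℤ, e' = fun E => e E - ∑ l, v l * c l E := ⟨_, rfl⟩
    have hb1 : BSum lev e' := by
      intro j
      have h1 : ∀ E, (if lev E = j then e' E else 0) = (if lev E = j then e E else 0) -
          ∑ l, v l * (if lev E = j then c l E else 0) := by
        intro E
        split_ifs
        · rw [he']
        · simp
      rw [Finset.sum_congr rfl fun E _ => h1 E, Finset.sum_sub_distrib, hb' j,
        Finset.sum_comm]
      simp only [← Finset.mul_sum, hb _ j, mul_zero, Finset.sum_const_zero, sub_zero]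
    have hx1 : ∀ l', ∑ E, e' E * ex E l' = (∑ l, a l * v l) * if l' = l0 then 1 else 0 := by
      intro l'
      have h1 : ∑ E, e' E * ex E l' = v l' - ∑ l, v l * ∑ E, c l E * ex E l' := by
        have h5 : v l' = ∑ E, e E * ex E l' := by rw [hv]
        rw [he', h5]
        simp only [sub_mul, Finset.sum_sub_distrib, Finset.sum_mul, Finset.mul_sum]
        congr 1
        rw [Finset.sum_comm]
        exact Finset.sum_congr rfl fun l _ => Finset.sum_congr rfl fun E _ => by ring
      rw [h1]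
      simp only [he, mul_sub, Finset.sum_sub_distrib]
      have h2 : ∑ l, v l * (if l' = l then (1 : ℤ) else 0) = v l' := by
        simp
      rw [h2, Finset.sum_mul, sub_sub_cancel]
      exact Finset.sum_congr rfl fun l _ => by ring
    have hA : (m : ℤ) ∣ ∑ l, a l * v l := by
      have h1 := hdiv e' hb1
      simp only [hx1] at h1
      have h2 : ∑ l', (∑ l, a l * v l) * (if l' = l0 then (1 : ℤ) else 0) * f l' =
          ∑ l, a l * v l := by
        rw [Finset.sum_eq_single l0]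
        · rw [if_pos rfl, hf1, mul_one, mul_one]
        · intro b _ hb2
          rw [if_neg hb2, mul_zero, zero_mul]
        · intro hn
          exact absurd (Finset.mem_univ _) hn
      rwa [h2] at h1
    obtain ⟨q, hq⟩ := hA
    have hz : (fun E => e' E - q * c0 E) = 0 := by
      refine Tl_zero hg hl (fun j => ?_) fun l' => ?_
      · have h1 : ∀ E, (if lev E = j then e' E - q * c0 E else 0) =
            (if lev E = j then e' E else 0) - q * (if lev E = j then c0 E else 0) := by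
          intro E
          split_ifs
          · rfl
          · simp
        rw [Finset.sum_congr rfl fun E _ => h1 E, Finset.sum_sub_distrib, hb1 j,
          ← Finset.mul_sum, hc0 j, mul_zero, sub_zero]
      · have h1 : ∑ E, (e' E - q * c0 E) * ex E l' = ∑ E, e' E * ex E l' -
            q * ∑ E, c0 E * ex E l' := by
          rw [Finset.mul_sum, ← Finset.sum_sub_distrib]
          exact Finset.sum_congr rfl fun E _ => by ring
        rw [h1, hx1, he0, hq]
        split_ifs
        · ring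
        · ring
    have hee : ∀ E, e E = ∑ l, v l * c l E + q * c0 E := by
      intro E
      have h1 := congrFun hz E
      simp only [he', Pi.zero_apply] at h1
      linarith
    have h1 : ∏ l, y l ^ (∑ E, e E * ex E l) =
        (∏ E, ρ E ^ (∑ l, v l * c l E)) * t ^ (∑ l, a l * v l) := by
      have h2 : ∀ l, y l ^ (∑ E, e E * ex E l) =
          (∏ E, ρ E ^ (v l * c l E)) * t ^ (a l * v l) := by
        intro l
        have h3 : ∑ E, e E * ex E l = v l := by rw [hv]
        rw [h3, hy, mul_zpow, ← zpow_mul, ← Finset.prod_zpow]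
        congr 1
        refine Finset.prod_congr rfl fun E _ => ?_
        rw [← zpow_mul, mul_comm]
      rw [Finset.prod_congr rfl fun l _ => h2 l, Finset.prod_mul_distrib, Tl_zsum _ t0,
        Finset.prod_comm]
      congr 1
      exact Finset.prod_congr rfl fun E _ => Tl_zsum _ (hρ0 E) _
    rw [h1, hq, zpow_mul, zpow_natCast, ht', ← Finset.prod_zpow, ← Finset.prod_mul_distrib]
    refine Finset.prod_congr rfl fun E _ => ?_
    rw [hee E, zpow_add₀ (hρ0 E), ← zpow_mul, mul_comm q]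
  refine ⟨y, ?_, fun l => Complex.ofReal_ne_zero.2 (hy0 l), lev, ζ, hl, h0, hR, hU, hS,
    fun E E' hE => ?_⟩
  · obtain ⟨h1, h2⟩ := hac l0 rfl
    rw [hy]
    simp [h1, h2]
  · obtain ⟨e, he1⟩ : ∃ e : Ω → ℤ, e = fun F => (if F = E then 1 else 0) -
        if F = E' then 1 else 0 := ⟨_, rfl⟩
    have hb1 : BSum lev e := by
      intro j
      have h1 : ∀ F, (if lev F = j then e F else 0) =
          (if F = E then (if lev E = j then 1 else 0) else 0) -
            if F = E' then (if lev E' = j then (1 : ℤ) else 0) else 0 := by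
        intro F
        rw [he1]
        by_cases hF : F = E <;> by_cases hF' : F = E' <;> by_cases hj : lev F = j <;>
          simp_all
      rw [Finset.sum_congr rfl fun F _ => h1 F, Finset.sum_sub_distrib, Finset.sum_ite_eq',
        Finset.sum_ite_eq', if_pos (Finset.mem_univ _), if_pos (Finset.mem_univ _), hE, sub_self]
    have h1 := key e hb1
    have h2 : ∀ l, ∑ F, e F * ex F l = ex E l - ex E' l := by
      intro l
      rw [he1]
      simp [sub_mul, Finset.sum_sub_distrib]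
    have h3 : ∏ F, ρ F ^ e F = ρ E / ρ E' := by
      have h4 : ∀ F, ρ F ^ e F = (if F = E then ρ E else 1) * (if F = E' then (ρ E')⁻¹ else 1) := by
        intro F
        rw [he1]
        by_cases hF : F = E <;> by_cases hF' : F = E'
        · subst hF
          subst hF'
          simp [hρ0 F]
        · subst hF
          simp [hF']
        · subst hF'
          simp [hF]
        · simp [hF, hF']
      rw [Finset.prod_congr rfl fun F _ => h4 F, Finset.prod_mul_distrib, Finset.prod_ite_eq',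
        Finset.prod_ite_eq', if_pos (Finset.mem_univ _), if_pos (Finset.mem_univ _), div_eq_mul_inv]
    have h4 : ∏ l, y l ^ ex E l = (ρ E / ρ E') * ∏ l, y l ^ ex E' l := by
      rw [← h3, ← h1, ← Finset.prod_mul_distrib]
      refine Finset.prod_congr rfl fun l _ => ?_
      rw [h2, ← zpow_add₀ (hy0 l), sub_add_cancel]
    have h5 : k' E * (∏ l, y l ^ ex E l) * r E' = k' E' * (∏ l, y l ^ ex E' l) * r E := by
      rw [h4, hρ]
      have := hk E
      have := hk E'
      have := hr E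
      have := hr E'
      field_simp
    have h6 : ∀ F, ∏ l, (y l : ℂ) ^ ex F l = ((∏ l, y l ^ ex F l : ℝ) : ℂ) := by
      intro F
      push_cast
      rfl
    rw [h6, h6, hζ E, hζ E', hE]
    have h7 : ((k' E * (∏ l, y l ^ ex E l) * r E' : ℝ) : ℂ) =
        ((k' E' * (∏ l, y l ^ ex E' l) * r E : ℝ) : ℂ) := by rw [h5]
    simp only [Complex.ofReal_mul] at h7
    linear_combination (μ (lev E')) * h7

private theorem Tl_root {m : ℕ} (hm : 1 ≤ m) {g : ℝ} (hg : 0 < g) : ∃ t : ℝ, 0 < t ∧ t ^ m = g :=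
  ⟨g ^ ((m : ℝ)⁻¹), Real.rpow_pos_of_pos hg _, Real.rpow_inv_natCast_pow hg.le (by omega)⟩

omit [Fintype Ω] in
private theorem Tl_ks {s : ℝ} (hs : s ≠ 0) (hk : ∀ E, k E ≠ 0) (E : Ω) : ks mo k s E ≠ 0 := by
  unfold ks
  split_ifs
  · exact mul_ne_zero hs (hk E)
  · exact hk E

/-- Over the two signs there are at least two real leading points. Proof: by `InR.conj` and `Uq` the
ratios of the `ζ` inside the levels are real. Let `γ c s` (for `c` with `BSum lev c`) be the product
of the `c E`-th powers of `ζ E / ks mo k s E`, a nonzero real number, multiplicative in `c`.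
By `Gen` and `Lev` a `c` with `BSum lev c` is determined by `∑ E, c E * ex E`: if this is zero then
also `∑ E, c E * h E = ∑ E, c E * val h ex w E = 0`.
By `Cyc` (`gen`) choose `c l` with `∑ E, c l E * ex E = δ l - a l * δ l0`. If `m` is odd let `t` be
the real `m`-th root of `γ c s` (`c` from `ord`), for both signs `s`. If `m` is even then
`γ c (-1) = - γ c 1` (the number of the elements in `mo` is odd), so for one sign `γ c s` is
positive and has two real `m`-th roots `t`. The real leading point is `y l = γ (c l) s * t ^ a l`;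
then `y l0 = t`. The equations hold because by `inv` and `ord` every element `v` of the lattice is
`∑ l, v l * (δ l - a l * δ l0) + q * m * δ l0`. -/
theorem two_le (hk : ∀ E, k E ≠ 0) (hg : Gen h ex) {m : ℕ} (hT : Ty vec ex h mo w m) :
    2 ≤ {y : Λ → ℝ | FD vec ex h (ks mo k 1) w fun l => (y l : ℂ)}.encard +
      {y : Λ → ℝ | FD vec ex h (ks mo k (-1)) w fun l => (y l : ℂ)}.encard := by
  obtain ⟨lev, ζ, l0, hl, h0, hR, hU, hS, hC⟩ := hT
  obtain ⟨μ, r, hr, hζ⟩ := Tl_split h0 hR hU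
  obtain ⟨c0, hc0, he0, hpar⟩ := hC.ord
  have hm := hC.pos
  have sol : ∀ {s : ℝ}, s ≠ 0 → ∀ {t : ℝ}, t ^ m = ∏ E, (r E / ks mo k s E) ^ c0 E →
      ∃ y : Λ → ℝ, y l0 = t ∧ FD vec ex h (ks mo k s) w fun l => (y l : ℂ) := fun hs t ht =>
    Tl_sol (Tl_ks hs hk) hg hl h0 hR hU hS hC hr hζ hc0 he0 ht
  have gne : ∀ s : ℝ, s ≠ 0 → ∏ E, (r E / ks mo k s E) ^ c0 E ≠ 0 := fun s hs =>
    Finset.prod_ne_zero_iff.2 fun E _ => zpow_ne_zero _ (div_ne_zero (hr E) (Tl_ks hs hk E))
  rcases Nat.even_or_odd m with hev | hodd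
  · -- even
    have hneg : ∏ E, (r E / ks mo k (-1) E) ^ c0 E = -∏ E, (r E / ks mo k 1 E) ^ c0 E := by
      have h1 : ∀ E, (r E / ks mo k (-1) E) ^ c0 E =
          (-1 : ℝ) ^ (if mo E then c0 E else 0) * (r E / ks mo k 1 E) ^ c0 E := by
        intro E
        unfold ks
        split_ifs
        · rw [← mul_zpow]
          congr 1
          have := hk E
          field_simp
        · rw [zpow_zero, one_mul]
      rw [Finset.prod_congr rfl fun E _ => h1 E, Finset.prod_mul_distrib,
        Tl_zsum _ (by norm_num : (-1 : ℝ) ≠ 0), (hpar hev).neg_one_zpow, neg_one_mul]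
    have two : ∀ {s : ℝ}, s ≠ 0 → 0 < ∏ E, (r E / ks mo k s E) ^ c0 E →
        2 ≤ {y : Λ → ℝ | FD vec ex h (ks mo k s) w fun l => (y l : ℂ)}.encard := by
      intro s hs hp
      obtain ⟨t, ht, et⟩ := Tl_root hm hp
      obtain ⟨y1, a1, b1⟩ := sol hs et
      obtain ⟨y2, a2, b2⟩ := sol hs (t := -t) (by rw [hev.neg_pow, et])
      have hne : y1 ≠ y2 := by
        intro h1
        rw [h1, a2] at a1
        linarith
      rw [← Set.encard_pair hne]
      refine Set.encard_le_encard ?_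
      rintro y (rfl | rfl)
      · exact b1
      · exact b2
    rcases lt_or_gt_of_ne (gne 1 one_ne_zero) with h1 | h1
    · exact (two (by norm_num) (by rw [hneg]; linarith)).trans le_add_self
    · exact (two one_ne_zero h1).trans le_self_add
  · -- odd
    have one : ∀ {s : ℝ}, s ≠ 0 →
        1 ≤ {y : Λ → ℝ | FD vec ex h (ks mo k s) w fun l => (y l : ℂ)}.encard := by
      intro s hs
      rw [Set.one_le_encard_iff_nonempty]
      rcases lt_or_gt_of_ne (gne s hs) with h1 | h1
      · obtain ⟨t, ht, et⟩ := Tl_root hm (neg_pos.2 h1)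
        obtain ⟨y, -, b⟩ := sol hs (t := -t) (by rw [hodd.neg_pow, et, neg_neg])
        exact ⟨y, b⟩
      · obtain ⟨t, ht, et⟩ := Tl_root hm h1
        obtain ⟨y, -, b⟩ := sol hs et
        exact ⟨y, b⟩
    have h2 := add_le_add (one one_ne_zero) (one (by norm_num : (-1 : ℝ) ≠ 0))
    rwa [one_add_one_eq_two] at h2

end Pool.Agent.MPb0eF
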