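import Pool.Agent.Lib.MP_b0e20b_ag_G.Gs
import Pool.Agent.Lib.MP_b0e20b_ag_G.Rm
import Pool.Agent.Lib.MP_b0e20b_ag_G.Tl

/-!
# MP_b0e20b_ag, project G: assembly
-/

set_option autoImplicit false

open scoped BigOperators Topology
open Filter MvPolynomial

namespace Pool.Agent.MPb0eF

open MPb0eQ (Sct dS sq PA G Hv blk Kx toC Tensor total IsReal crit realCrit IsGenericNumber)

private theorem GFin_two {α : Type} {A B : Set α} (h : 2 ≤ A.encard + B.encard) :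
    ∃ T1 T2 : Finset α, (T1 : Set α) ⊆ A ∧ (T2 : Set α) ⊆ B ∧ 2 ≤ T1.card + T2.card := by
  classical
  by_cases hA : A.Finite
  · by_cases hB : B.Finite
    · refine ⟨hA.toFinset, hB.toFinset, by simp, by simp, ?_⟩
      rw [hA.encard_eq_coe_toFinset_card, hB.encard_eq_coe_toFinset_card] at h
      exact_mod_cast h
    · obtain ⟨T, hT, hT2⟩ := Set.Infinite.exists_subset_card_eq hB 2
      exact ⟨∅, T, by simp, hT, by simp [hT2]⟩
  · obtain ⟨T, hT, hT2⟩ := Set.Infinite.exists_subset_card_eq hA 2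
    exact ⟨T, ∅, hT, by simp, by simp [hT2]⟩

/-- The count. Proof: for `w ∈ W` choose by `two_le` finite sets of real leading points for
the two signs with together at least two elements; here `mo = moF bl`, and `ks mo (kF bl sg) s` is
`kF bl (s * sg)`. `real_many` for both signs gives sets of real solutions of sizes `r₁`, `r₂` with
`2 * W.card ≤ r₁ + r₂ ≤ 2 * K`. -/
theorem count {κ : Type} [Fintype κ] [DecidableEq κ] {d : ℕ} {bl : κ → Fin d}
    {h sg : NS bl → ℝ} {r : Fin d → ℝ} (s0 : ∀ S, sg S ≠ 0)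
    (hh : ∀ (c : NS bl → ℤ) (e : Fin d → ℤ),
      ∑ S, (c S : ℝ) * h S + ∑ i, (e i : ℝ) * r i = 0 → c = 0 ∧ e = 0) {K : ℕ}
    (hK : ∀ (c : Sct bl → ℝ) (S : Finset (κ → ℝ)),
      (∀ x ∈ S, G bl c x = 0 ∧ ∀ v, Hv bl c x v = 0 → v = 0) → S.card ≤ K)
    (W : Finset (Un κ d → ℝ))
    (hW : ∀ w ∈ W, ∃ m, Ty (vF bl) (eF bl) (hF bl h) (moF bl) w m) : W.card ≤ K := by
  classical
  have hk : ∀ E, kF bl sg E ≠ 0 := by
    rintro (S | E)
    · exact s0 S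
    · exact one_ne_zero
  have hg : Gen (hF bl h) (eF bl) := genF fun c hc => (hh c 0 (by simpa using hc)).1
  have hks : ∀ s : ℝ, ks (moF bl) (kF bl sg) s = kF bl (fun S => s * sg S) := by
    intro s
    funext E
    rcases E with S | E
    · simp [ks, moF, kF]
    · simp [ks, moF, kF]
  have h2 : ∀ w ∈ W, ∃ T1 T2 : Finset (Un κ d → ℝ),
      (∀ y ∈ T1, FD (vF bl) (eF bl) (hF bl h) (kF bl fun S => 1 * sg S) w
        fun l => (y l : ℂ)) ∧
      (∀ y ∈ T2, FD (vF bl) (eF bl) (hF bl h) (kF bl fun S => -1 * sg S) w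
        fun l => (y l : ℂ)) ∧ 2 ≤ T1.card + T2.card := by
    intro w hw
    obtain ⟨m, hm⟩ := hW w hw
    have h3 := two_le hk hg hm
    rw [hks, hks] at h3
    obtain ⟨T1, T2, h4, h5, h6⟩ := GFin_two h3
    exact ⟨T1, T2, fun y hy => h4 hy, fun y hy => h5 hy, h6⟩
  choose! T1 T2 hT1 hT2 hT using h2
  have key : ∀ (s : ℝ), s ≠ 0 → ∀ T : (Un κ d → ℝ) → Finset (Un κ d → ℝ),
      (∀ w ∈ W, ∀ y ∈ T w, FD (vF bl) (eF bl) (hF bl h) (kF bl fun S => s * sg S) w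
        fun l => (y l : ℂ)) → ∑ w ∈ W, (T w).card ≤ K := by
    intro s hs T hTs
    have hinj : Function.Injective
        (fun p : (Σ _ : (Un κ d → ℝ), (Un κ d → ℝ)) => (p.1, p.2)) := by
      rintro ⟨a, b⟩ ⟨a', b'⟩ hab
      simp only [Prod.mk.injEq] at hab
      obtain ⟨rfl, rfl⟩ := hab
      rfl
    obtain ⟨c, S, hS, hS'⟩ := real_many (bl := bl) (h := h) (sg := fun S => s * sg S)
      (fun S => mul_ne_zero hs (s0 S)) ((W.sigma T).image fun p => (p.1, p.2)) (by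
        intro p hp
        obtain ⟨q, hq, rfl⟩ := Finset.mem_image.1 hp
        obtain ⟨hq1, hq2⟩ := Finset.mem_sigma.1 hq
        exact hTs _ hq1 _ hq2)
    have h7 := hK c S hS'
    rw [hS, Finset.card_image_of_injective _ hinj, Finset.card_sigma] at h7
    exact h7
  have h8 := key 1 one_ne_zero T1 hT1
  have h9 := key (-1) (neg_ne_zero.2 one_ne_zero) T2 hT2
  have h10 : ∑ w ∈ W, 2 ≤ ∑ w ∈ W, ((T1 w).card + (T2 w).card) := Finset.sum_le_sum hT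
  rw [Finset.sum_add_distrib, Finset.sum_const, smul_eq_mul] at h10
  omega

/-- The bounds which follow from the count. -/
theorem bounds {κ : Type} [Fintype κ] [DecidableEq κ] {d : ℕ} {bl : κ → Fin d}
    {h sg : NS bl → ℝ} {r : Fin d → ℝ} (s0 : ∀ S, sg S ≠ 0)
    (hh : ∀ (c : NS bl → ℤ) (e : Fin d → ℤ),
      ∑ S, (c S : ℝ) * h S + ∑ i, (e i : ℝ) * r i = 0 → c = 0 ∧ e = 0) {D : ℕ}
    (hC : CQ D (vF bl) (eF bl) (hF bl h) (moF bl)) {N K : ℕ} {P : MvPolynomial (Sct bl) ℂ}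
    (hP : P ≠ 0) (hN : ∀ c : Sct bl → ℂ, eval c P ≠ 0 → {x | G bl c x = 0}.encard = N)
    (hK : ∀ (c : Sct bl → ℝ) (S : Finset (κ → ℝ)),
      (∀ x ∈ S, G bl c x = 0 ∧ ∀ v, Hv bl c x v = 0 → v = 0) → S.card ≤ K) :
    N ≤ D * K ∧ ∀ A B : ℕ, BQ A B (vF bl) (eF bl) (hF bl h) (moF bl) → B * N ≤ A * K := by
  obtain ⟨W, m, hW, hNm⟩ := many_w s0 hh hC hP hN
  refine ⟨?_, ?_⟩
  · have h1 := count s0 hh hK W fun w hw => ⟨m w, (hW w hw).2⟩
    calc N ≤ ∑ w ∈ W, m w := hNm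
      _ ≤ ∑ _w ∈ W, D := Finset.sum_le_sum fun w hw => (hW w hw).1
      _ = D * W.card := by rw [Finset.sum_const, smul_eq_mul, mul_comm]
      _ ≤ D * K := Nat.mul_le_mul_left D h1
  · intro A B hB
    obtain ⟨W', m', hsub, hle, hW', hsum⟩ := hB W m fun w hw => (hW w hw).2
    have h1 := count s0 hh hK W' fun w hw => ⟨m' w, hW' w hw⟩
    calc B * N ≤ B * ∑ w ∈ W', m' w := by
          refine Nat.mul_le_mul_left B (hNm.trans ?_)
          exact (Finset.sum_le_sum hle).trans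
            (Finset.sum_le_sum_of_subset hsub)
      _ ≤ A * W'.card := hsum
      _ ≤ A * K := Nat.mul_le_mul_left A h1

/-- The attained numbers for a format with suitable heights. The bound for `N` is the one from
`bounds`. -/
theorem mainB {d : ℕ} (hd : 3 ≤ d) (n : Fin d → ℕ) (hn : ∀ i, 1 ≤ n i) {A B : ℕ}
    (h : ∃ (h : NS (blk n) → ℝ) (r : Fin d → ℝ),
      (∀ (c : NS (blk n) → ℤ) (e : Fin d → ℤ),
        ∑ S, (c S : ℝ) * h S + ∑ i, (e i : ℝ) * r i = 0 → c = 0 ∧ e = 0) ∧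
      CQ d (vF (blk n)) (eF (blk n)) (hF (blk n) h) (moF (blk n)) ∧
      ((A = d ∧ B = 1) ∨ BQ A B (vF (blk n)) (eF (blk n)) (hF (blk n) h) (moF (blk n)))) :
    ∃ N K : ℕ, IsGenericNumber n N ∧ Odd N ∧ Odd K ∧ K ≤ N ∧ B * N ≤ A * K ∧
      (∀ k : ℕ, (∃ T : Tensor n, total T = 1 ∧ IsReal T ∧ (crit T).encard = N ∧
        (realCrit T).encard = k) ↔ Odd k ∧ k ≤ K) ∧
      ∀ m : ℕ, (∀ i, m ≤ n i) → 2 * (1 + 2 ^ (d - 1)) ^ m - 1 ≤ K := by
  obtain ⟨h, r, hh, hC, hAB⟩ := h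
  obtain ⟨N, K, P, hP, hN, hNo, hKo, hKN, hk, hlow⟩ :=
    MPb0eQ.coords (blk n) hd (fun i => ⟨⟨i, ⟨0, hn i⟩⟩, rfl⟩)
  have hb := bounds (sg := fun _ => 1) (fun _ => one_ne_zero) hh hC hP hN hlow
  have hcnt : B * N ≤ A * K := by
    rcases hAB with ⟨rfl, rfl⟩ | hB
    · rw [one_mul]
      exact hb.1
    · exact hb.2 A B hB
  refine ⟨N, K, MPb0eQ.generic_of P hP hN, hNo, hKo, hKN, hcnt, ?_, ?_⟩
  rotate_left
  · intro m hm
    obtain ⟨c, F, hF, hcard⟩ := MPb0eQ.many (blk n) hd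
      (fun (i : Fin d) (j : Fin m) => (⟨i, ⟨j.1, lt_of_lt_of_le j.2 (hm i)⟩⟩ : Kx n))
      (fun i j => rfl) (fun i j j' h => by
        have h2 := (Sigma.mk.inj_iff.1 h).2
        rw [heq_eq_eq] at h2
        exact Fin.ext (by simpa using congrArg Fin.val h2))
    exact hcard.trans (hlow c F hF)
  intro k
  rw [← hk k]
  constructor
  · rintro ⟨T, _, hr, h1, h2⟩
    obtain ⟨c, hc⟩ := MPb0eQ.par_real T hr
    refine ⟨c, ?_, ?_⟩
    · rw [← hc, ← MPb0eQ.crit_encard, h1]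
    · rw [← MPb0eQ.realCrit_encard T c hc, h2]
  · rintro ⟨c, h1, h2⟩
    classical
    set c' : Sct (blk n) → ℝ := fun s => if s.1 = ∅ then 1 else c s with hc'
    have e1 : ∀ x, G (blk n) (toC (blk n) c') x = G (blk n) (toC (blk n) c) x := by
      intro x
      apply MPb0eQ.G_empty
      intro s hs
      simp [toC, hc', hs]
    have e2 : ∀ x, G (blk n) c' x = G (blk n) c x := by
      intro x
      apply MPb0eQ.G_empty
      intro s hs
      simp [hc', hs]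
    refine ⟨MPb0eQ.ten (toC (blk n) c'), ?_, MPb0eQ.ten_real c', ?_, ?_⟩
    · rw [← MPb0eQ.par_empty _ (by simp), MPb0eQ.par_ten]
      simp [toC, hc']
    · rw [MPb0eQ.crit_encard, MPb0eQ.par_ten]
      simp only [e1]
      exact h1
    · rw [MPb0eQ.realCrit_encard (MPb0eQ.ten (toC (blk n) c')) c' (MPb0eQ.par_ten _)]
      simp only [e2]
      exact h2

/-- The weak form. -/
theorem mainG {d : ℕ} (hd : 3 ≤ d) (n : Fin d → ℕ) (hn : ∀ i, 1 ≤ n i)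
    (h : ∃ (h : NS (blk n) → ℝ) (r : Fin d → ℝ),
      (∀ (c : NS (blk n) → ℤ) (e : Fin d → ℤ),
        ∑ S, (c S : ℝ) * h S + ∑ i, (e i : ℝ) * r i = 0 → c = 0 ∧ e = 0) ∧
      CQ d (vF (blk n)) (eF (blk n)) (hF (blk n) h) (moF (blk n))) :
    ∃ N K : ℕ, IsGenericNumber n N ∧ Odd N ∧ Odd K ∧ K ≤ N ∧ N ≤ d * K ∧
      (∀ k : ℕ, (∃ T : Tensor n, total T = 1 ∧ IsReal T ∧ (crit T).encard = N ∧
        (realCrit T).encard = k) ↔ Odd k ∧ k ≤ K) ∧
      ∀ m : ℕ, (∀ i, m ≤ n i) → 2 * (1 + 2 ^ (d - 1)) ^ m - 1 ≤ K := by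
  obtain ⟨h, r, hh, hC⟩ := h
  have h1 := mainB hd n hn (A := d) (B := 1) ⟨h, r, hh, hC, Or.inl ⟨rfl, rfl⟩⟩
  simpa only [one_mul] using h1

end Pool.Agent.MPb0eF
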