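import Pool.Agent.Lib.MP_b0e20b_ag_G.CellD
import Pool.Agent.Lib.MP_b0e20b_ag_G.Bal
import Pool.Agent.Lib.MP_b0e20b_ag_G.GFin

/-!
# MP_b0e20b_ag, project G: assembly of the blocks (interface of the blocks A, X and C)
-/

set_option autoImplicit false

open scoped BigOperators Topology

namespace Pool.Agent.MPb0eF

open MPb0eA (Pw Wp Mo vM Cf lb hE tup)
open MPb0eQ (blk Kx Tensor total IsReal crit realCrit IsGenericNumber)
open MPb0eC (Mac Ne NN KK)

variable {d : ℕ}

/-- A cell is determined by its family. -/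
theorem cel_inj {n : Fin d → ℕ} {c c' : Cel d} (hc : IsCel n c) (hc' : IsCel n c')
    (h : c.2.2 = c'.2.2) (h0 : c.2.2.Nonempty) : c = c' := by
  obtain ⟨J, r, C⟩ := c
  obtain ⟨J', r', C'⟩ := c'
  simp only at h h0
  subst h
  -- labels: the minimum and the maximum of the used labels
  have key : ∀ {lo r lo' r' p p' : Fin d → ℕ}, Core lo r p C → Core lo' r' p' C →
      (∀ i, lo i ≤ r i) → (∀ i, lo' i ≤ r' i) → lo = lo' ∧ r = r' := by
    intro lo r lo' r' p p' h1 h2 h3 h4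
    refine ⟨funext fun i => ?_, funext fun i => ?_⟩
    · obtain ⟨T, hT, hTi⟩ := h1.used i (lo i) le_rfl (h3 i)
      obtain ⟨U, hU, hUi⟩ := h2.used i (lo' i) le_rfl (h4 i)
      have e1 := (h2.inB T hT i).1
      have e2 := (h1.inB U hU i).1
      omega
    · obtain ⟨T, hT, hTi⟩ := h1.used i (r i) (h3 i) le_rfl
      obtain ⟨U, hU, hUi⟩ := h2.used i (r' i) (h4 i) le_rfl
      have e1 := (h2.inB T hT i).2
      have e2 := (h1.inB U hU i).2
      omega
  have hind : ∀ (K : Finset (Fin d)) (r : Fin d → ℕ), (∀ i ∈ K, 1 ≤ r i) →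
      ∀ i, MPb0eC.ind K i ≤ r i := fun K r h => MPb0eC.ind_le.2 h
  have hJ : ∀ K K' : Finset (Fin d), MPb0eC.ind K = MPb0eC.ind K' → K = K' := by
    intro K K' h
    ext i
    have := congrFun h i
    by_cases h1 : i ∈ K <;> by_cases h2 : i ∈ K' <;> simp_all [MPb0eC.ind]
  have hz : MPb0eC.ind (∅ : Finset (Fin d)) = 0 := by
    funext i
    simp [MPb0eC.ind]
  rcases hc with ⟨h1, h2, h3⟩ | ⟨h1, h2, h3, h4⟩ <;>
    rcases hc' with ⟨h1', h2', h3'⟩ | ⟨h1', h2', h3', h4'⟩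
  · simp only at h1 h2 h1' h2'
    rw [h1, h1', h2, h2']
  · exfalso
    have := (key h3 h4' (fun i => Nat.zero_le _) (hind _ _ h2')).1
    rw [← hz] at this
    exact h1' (hJ _ _ this).symm
  · exfalso
    have := (key h3' h4 (fun i => Nat.zero_le _) (hind _ _ h2)).1
    rw [← hz] at this
    exact h1 (hJ _ _ this).symm
  · obtain ⟨e1, e2⟩ := key h4 h4' (hind _ _ h2) (hind _ _ h2')
    simp only at e1 e2
    rw [hJ _ _ e1, e2]

/-- A core is not empty. -/
theorem Core.ne {lo r p : Fin d → ℕ} {C : Finset (Fin d → ℕ)} (h : Core lo r p C) :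
    C.Nonempty := by
  obtain ⟨lam, hw, -⟩ := h.wt
  by_contra h0
  rw [Finset.not_nonempty_iff_eq_empty] at h0
  have := hw.one
  rw [h0, Finset.sum_empty] at this
  exact zero_ne_one this

theorem IsCel.ne {n : Fin d → ℕ} {c : Cel d} (h : IsCel n c) : c.2.2.Nonempty := by
  rcases h with ⟨-, -, h⟩ | ⟨-, -, -, h⟩
  · exact h.ne
  · exact h.ne

/-- The balance condition from the blocks: existence, classification, uniqueness and count. -/
theorem bq_cells {n : Fin d → ℕ} {hh : (Fin d → ℕ) → ℝ}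
    (hex : ∀ c, IsCel n c → ∃ w, Ty (vF (blk n)) (eF (blk n)) (hE n hh) (moF (blk n)) w (mu c) ∧
      Tp n hh w c)
    (hcl : ∀ w m, Ty (vF (blk n)) (eF (blk n)) (hE n hh) (moF (blk n)) w m →
      ∃ c, IsCel n c ∧ Tp n hh w c ∧ m ≤ mu c)
    (hun : ∀ w w' m m' c, IsCel n c → Ty (vF (blk n)) (eF (blk n)) (hE n hh) (moF (blk n)) w m →
      Ty (vF (blk n)) (eF (blk n)) (hE n hh) (moF (blk n)) w' m' → Tp n hh w c → Tp n hh w' c →
      w = w')
    (hct : 2 * ∑ c ∈ cells n, mu c ≤ 3 * (cells n).card) :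
    BQ 3 2 (vF (blk n)) (eF (blk n)) (hE n hh) (moF (blk n)) := by
  classical
  have hex' : ∀ c : Cel d, ∃ w : Un (Kx n) d → ℝ, IsCel n c →
      Ty (vF (blk n)) (eF (blk n)) (hE n hh) (moF (blk n)) w (mu c) ∧ Tp n hh w c := by
    intro c
    by_cases hc : IsCel n c
    · obtain ⟨w, hw⟩ := hex c hc
      exact ⟨w, fun _ => hw⟩
    · exact ⟨0, fun h => absurd h hc⟩
  choose W hW using hex'
  have htp : ∀ w c c', IsCel n c → IsCel n c' → Tp n hh w c → Tp n hh w c' → c = c' := by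
    rintro w c c' hc hc' ⟨V, h1, h2⟩ ⟨V', h1', h2'⟩
    have hV : V = V' := by
      obtain ⟨T, hT⟩ := hc.ne
      obtain ⟨T', hT'⟩ := hc'.ne
      rw [← h2, Cf, Finset.mem_filter] at hT
      rw [← h2', Cf, Finset.mem_filter] at hT'
      have e1 := h1' T hT.1
      have e2 := h1 T' hT'.1
      rw [hT.2] at e1
      rw [hT'.2] at e2
      exact le_antisymm e1 e2
    subst hV
    exact cel_inj hc hc' (h2.symm.trans h2') hc.ne
  refine bq_of (cells n) W mu ?_ ?_ ?_ hct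
  · intro c hc
    exact (hW c (mem_cells.1 hc)).1
  · intro c hc c' hc' h
    have h1 := (hW c (mem_cells.1 hc)).2
    have h2 := (hW c' (mem_cells.1 hc')).2
    rw [h] at h1
    exact htp _ c c' (mem_cells.1 hc) (mem_cells.1 hc') h1 h2
  · intro w m hT
    obtain ⟨c, hc, hcw, hm⟩ := hcl w m hT
    have h1 := hW c hc
    exact ⟨c, mem_cells.2 hc, hun _ _ _ _ c hc h1.1 hT h1.2 hcw, hm⟩

end Pool.Agent.MPb0eF
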