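import Pool.Agent.Lib.MP_b0e20b_ag_A.AltN
import Pool.Agent.Lib.MP_b0e20b_ag_A.Lab
import Pool.Agent.Lib.MP_b0e20b_ag_C.Defs
import Pool.Agent.Lib.MP_b0e20b_ag_G.Defs

/-!
# MP_b0e20b_ag, project G: cells (definitions)

The flags of the flat heights are parametrised by cells `(J, r, C)`: either `J` is empty, `r = n` and
`C` is a core with all labels `0, ..., n i` and the reference `0`, or `J` is not empty and `C` is a
core with the labels `lo i, ..., r i` (`lo i = 1` for `i ∈ J`, `lo i = 0` otherwise) and the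
reference `r`. The order of the group is `1` for empty `J` and `card J` otherwise.
-/

set_option autoImplicit false

open scoped BigOperators

namespace Pool.Agent.MPb0eF

open MPb0eA (Pw Wp Mo vM Cf lb)
open MPb0eC (box)
open MPb0eQ (blk Kx)

variable {d : ℕ}

/-- A core with the labels between `lo` and `r` and the reference `p`. -/
structure Core (lo r p : Fin d → ℕ) (C : Finset (Fin d → ℕ)) : Prop where
  pw : Pw C
  inB : ∀ T ∈ C, ∀ i, lo i ≤ T i ∧ T i ≤ r i
  used : ∀ i b, lo i ≤ b → b ≤ r i → ∃ T ∈ C, T i = b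
  wt : ∃ lam : (Fin d → ℕ) → ℝ, Wp C lam p ∧ ∀ T ∈ C, lam T ≠ 0

/-- The number of the cores of the box `a`. -/
noncomputable def Dc (a : Fin d → ℕ) : ℕ :=
  {C : Finset (Fin d → ℕ) | Core 0 a 0 C}.ncard

/-- The cells. -/
abbrev Cel (d : ℕ) : Type := Finset (Fin d) × (Fin d → ℕ) × Finset (Fin d → ℕ)

/-- The cells of the format `n`. -/
def IsCel (n : Fin d → ℕ) (c : Cel d) : Prop :=
  (c.1 = ∅ ∧ c.2.1 = n ∧ Core 0 n 0 c.2.2) ∨
    (c.1 ≠ ∅ ∧ (∀ i ∈ c.1, 1 ≤ c.2.1 i) ∧ (∀ i, c.2.1 i ≤ n i) ∧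
      Core (MPb0eC.ind c.1) c.2.1 c.2.1 c.2.2)

open Classical in
/-- The finite set of the cells. -/
noncomputable def cells (n : Fin d → ℕ) : Finset (Cel d) :=
  (Finset.univ ×ˢ (box n ×ˢ (box n).powerset)).filter (IsCel n)

/-- The order of a cell. -/
def mu (c : Cel d) : ℕ := if c.1 = ∅ then 1 else c.1.card

/-- `w` belongs to the cell `c`: the monomials of maximal value are the elements of `C`. -/
def Tp (n : Fin d → ℕ) (hh : (Fin d → ℕ) → ℝ) (w : Un (Kx n) d → ℝ) (c : Cel d) : Prop :=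
  ∃ V, (∀ T ∈ Mo n, vM hh (lb w) T ≤ V) ∧ Cf n hh (lb w) V = c.2.2

theorem mem_cells {n : Fin d → ℕ} {c : Cel d} : c ∈ cells n ↔ IsCel n c := by
  classical
  unfold cells
  rw [Finset.mem_filter]
  refine ⟨fun h => h.2, fun h => ⟨?_, h⟩⟩
  rw [Finset.mem_product, Finset.mem_product, Finset.mem_powerset]
  refine ⟨Finset.mem_univ _, ?_, ?_⟩
  · rw [box, Fintype.mem_piFinset]
    intro i
    rw [Finset.mem_range, Nat.lt_succ_iff]
    rcases h with h | h
    · rw [h.2.1]
    · exact h.2.2.1 i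
  · intro T hT
    rw [box, Fintype.mem_piFinset]
    intro i
    rw [Finset.mem_range, Nat.lt_succ_iff]
    rcases h with h | h
    · exact (h.2.2.inB T hT i).2
    · exact (h.2.2.2.inB T hT i).2.trans (h.2.2.1 i)

end Pool.Agent.MPb0eF
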