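import Pool.Agent.Lib.MP_b0e20b_ag_G.Defs

/-!
# MP_b0e20b_ag, project G: the linearised limit system
-/

set_option autoImplicit false

open scoped BigOperators Topology
open Filter

namespace Pool.Agent.MPb0eF

variable {Ω Λ Ρ : Type} [Fintype Ω] [Fintype Λ] [Fintype Ρ] {vec : Ω → Ρ → ℤ}
  {ex : Ω → Λ → ℤ} {h : Ω → ℝ} {k : Ω → ℝ} {w : Λ → ℝ} {lev : Ω → ℕ}

private theorem Ad_dot_add (φ ψ : Ρ → ℚ) (v : Ρ → ℤ) :
    dot (φ + ψ) v = dot φ v + dot ψ v := by
  unfold dot
  rw [← Finset.sum_add_distrib]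
  exact Finset.sum_congr rfl fun l _ => by rw [Pi.add_apply]; ring

private theorem Ad_dot_smul (a : ℚ) (φ : Ρ → ℚ) (v : Ρ → ℤ) :
    dot (a • φ) v = a * dot φ v := by
  unfold dot
  rw [Finset.mul_sum]
  exact Finset.sum_congr rfl fun l _ => by rw [Pi.smul_apply, smul_eq_mul]; ring

/-- The linear forms which vanish on the vectors of level `< n`. -/
private def AdF (vec : Ω → Ρ → ℤ) (lev : Ω → ℕ) (n : ℕ) : Submodule ℚ (Ρ → ℚ) where
  carrier := {ψ | ∀ E, lev E < n → dot ψ (vec E) = 0}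
  add_mem' := by
    intro a b ha hb E hE
    rw [Ad_dot_add, ha E hE, hb E hE, add_zero]
  zero_mem' := by
    intro E _
    simp [dot]
  smul_mem' := by
    intro a b hb E hE
    rw [Ad_dot_smul, hb E hE, mul_zero]

omit [Fintype Ω] in
private theorem AdF_mem {n : ℕ} {ψ : Ρ → ℚ} :
    ψ ∈ AdF vec lev n ↔ ∀ E, lev E < n → dot ψ (vec E) = 0 := Iff.rfl

omit [Fintype Ω] in
private theorem AdF_anti {m n : ℕ} (hmn : m ≤ n) : AdF vec lev n ≤ AdF vec lev m :=
  fun _ hψ E hE => hψ E (lt_of_lt_of_le hE hmn)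

omit [Fintype Ω] in
private theorem Ad_step (N : ℕ) (hN : AdF vec lev N = ⊥) (k : ℕ) (hk : k ≤ N) :
    ∃ (s : Set (Ρ → ℚ)) (j : (Ρ → ℚ) → ℕ), LinearIndepOn ℚ id s ∧
      Submodule.span ℚ s = AdF vec lev (N - k) ∧ (∀ v ∈ s, v ∈ AdF vec lev (j v)) ∧
      (∀ v ∈ s, N - k ≤ j v) ∧
      ∀ m, N - k ≤ m → AdF vec lev m ≤ Submodule.span ℚ {v | v ∈ s ∧ m ≤ j v} := by
  classical
  induction k with
  | zero =>
    refine ⟨∅, fun _ => 0, linearIndepOn_empty _ _, ?_, ?_, ?_, ?_⟩
    · rw [Submodule.span_empty, Nat.sub_zero, hN]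
    · intro v hv
      exact absurd hv (Set.notMem_empty v)
    · intro v hv
      exact absurd hv (Set.notMem_empty v)
    · intro m hm
      have h1 : AdF vec lev m ≤ AdF vec lev N := AdF_anti (by omega)
      rw [hN] at h1
      exact h1.trans bot_le
  | succ k ih =>
    obtain ⟨s, j, hs, hsp, hj, hjn, hm⟩ := ih (by omega)
    have hst : s ⊆ (AdF vec lev (N - (k + 1)) : Set (Ρ → ℚ)) := by
      intro v hv
      have h1 : v ∈ AdF vec lev (N - k) := by
        rw [← hsp]
        exact Submodule.subset_span hv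
      exact AdF_anti (by omega) h1
    obtain ⟨b, hbt, hsb, htb, hb⟩ := exists_linearIndepOn_id_extension hs hst
    have hspb : Submodule.span ℚ b = AdF vec lev (N - (k + 1)) :=
      le_antisymm (Submodule.span_le.2 hbt) htb
    refine ⟨b, fun v => if v ∈ s then j v else N - (k + 1), hb, hspb, ?_, ?_, ?_⟩
    · intro v hv
      change v ∈ AdF vec lev (if v ∈ s then j v else N - (k + 1))
      by_cases hvs : v ∈ s
      · rw [if_pos hvs]
        exact hj v hvs
      · rw [if_neg hvs]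
        exact hbt hv
    · intro v hv
      change N - (k + 1) ≤ if v ∈ s then j v else N - (k + 1)
      by_cases hvs : v ∈ s
      · rw [if_pos hvs]
        have := hjn v hvs
        omega
      · rw [if_neg hvs]
    · intro m hmk
      rcases Nat.lt_or_ge m (N - k) with h1 | h1
      · have h2 : m = N - (k + 1) := by omega
        rw [h2, ← hspb]
        refine Submodule.span_mono fun v hv => ⟨hv, ?_⟩
        change N - (k + 1) ≤ if v ∈ s then j v else N - (k + 1)
        by_cases hvs : v ∈ s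
        · rw [if_pos hvs]
          have := hjn v hvs
          omega
        · rw [if_neg hvs]
      · refine (hm m h1).trans (Submodule.span_mono ?_)
        rintro v ⟨hv, hv'⟩
        refine ⟨hsb hv, ?_⟩
        change m ≤ if v ∈ s then j v else N - (k + 1)
        rw [if_pos hv]
        exact hv'

/-- An adapted basis of the linear forms: independent linear forms `φ i` with levels `j i`, such
that `φ i` vanishes on the vectors of level `< j i`, and every linear form which vanishes on the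
vectors of level `< j` is a combination of the `φ i` with `j ≤ j i`. Proof: the spaces `F j`
decrease from everything to zero (`hspan`); choose successively complements. -/
theorem exists_adapted (vec : Ω → Ρ → ℤ) (lev : Ω → ℕ)
    (hspan : ∀ φ : Ρ → ℚ, (∀ E, dot φ (vec E) = 0) → φ = 0) :
    ∃ (φ : Ρ → Ρ → ℚ) (j : Ρ → ℕ), (∀ i E, lev E < j i → dot (φ i) (vec E) = 0) ∧
      (∀ c : Ρ → ℚ, (∀ ρ, ∑ i, c i * φ i ρ = 0) → c = 0) ∧
      ∀ (n : ℕ) (ψ : Ρ → ℚ), (∀ E, lev E < n → dot ψ (vec E) = 0) →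
        ∃ c : Ρ → ℚ, (∀ i, c i ≠ 0 → n ≤ j i) ∧ ∀ ρ, ψ ρ = ∑ i, c i * φ i ρ := by
  classical
  obtain ⟨N, hN⟩ : ∃ N, ∀ E, lev E < N := by
    refine ⟨Finset.univ.sup lev + 1, fun E => ?_⟩
    exact Nat.lt_succ_of_le (Finset.le_sup (Finset.mem_univ E))
  have hbot : AdF vec lev N = ⊥ := by
    rw [eq_bot_iff]
    intro ψ hψ
    rw [Submodule.mem_bot]
    exact hspan ψ fun E => hψ E (hN E)
  obtain ⟨s, j, hs, hsp, hj, -, hm⟩ := Ad_step N hbot N le_rfl
  rw [Nat.sub_self] at hsp hm
  have htop : Submodule.span ℚ s = ⊤ := by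
    rw [hsp, eq_top_iff]
    intro ψ _ E hE
    exact absurd hE (Nat.not_lt_zero _)
  have hli : LinearIndependent ℚ (fun v : s => (v : Ρ → ℚ)) := hs
  let B : Module.Basis s ℚ (Ρ → ℚ) := Module.Basis.mk hli (by
    rw [Subtype.range_coe_subtype, Set.ofPred_mem_eq, htop])
  let e : s ≃ Ρ := B.indexEquiv (Pi.basisFun ℚ Ρ)
  refine ⟨fun i => ((e.symm i : s) : Ρ → ℚ), fun i => j (e.symm i : s), ?_, ?_, ?_⟩
  · intro i E hE
    exact hj _ (e.symm i).2 E hE
  · intro c hc
    have h1 : LinearIndependent ℚ (fun i : Ρ => ((e.symm i : s) : Ρ → ℚ)) :=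
      hli.comp _ e.symm.injective
    have h2 := Fintype.linearIndependent_iff.1 h1 c (by
      funext ρ
      rw [Finset.sum_apply]
      simpa using hc ρ)
    exact funext h2
  · intro n ψ hψ
    have h1 : ψ ∈ Submodule.span ℚ {v | v ∈ s ∧ n ≤ j v} := hm n (Nat.zero_le _) hψ
    have h2 : {v | v ∈ s ∧ n ≤ j v} =
        (fun i : Ρ => ((e.symm i : s) : Ρ → ℚ)) '' {i | n ≤ j (e.symm i : s)} := by
      ext v
      constructor
      · rintro ⟨hv, hv'⟩
        refine ⟨e ⟨v, hv⟩, ?_, ?_⟩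
        · simpa using hv'
        · simp
      · rintro ⟨i, hi, rfl⟩
        exact ⟨(e.symm i).2, hi⟩
    rw [h2, Finsupp.mem_span_image_iff_linearCombination] at h1
    obtain ⟨l, hl, hl'⟩ := h1
    refine ⟨l, ?_, ?_⟩
    · intro i hi
      exact (Finsupp.mem_supported ℚ l).1 hl (Finsupp.mem_support_iff.2 hi)
    · intro ρ
      rw [← hl', Finsupp.linearCombination_apply, Finsupp.sum_fintype _ _ (by simp),
        Finset.sum_apply]
      rfl

/-- The derivative of the limit system is injective. Proof: by the adapted basis the numbers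
`ζ E * ∑ l, ex E l * η l` are in `InR` for all levels, so by `Uq` the numbers `∑ l, ex E l * η l`
depend only on the level, and `Sp` gives `η = 0` (as in `rig`). -/
theorem lim_inj {ζ : Ω → ℝ} {φ : Ρ → Ρ → ℚ} {j : Ρ → ℕ}
    (h2 : ∀ (n : ℕ) (ψ : Ρ → ℚ), (∀ E, lev E < n → dot ψ (vec E) = 0) →
        ∃ c : Ρ → ℚ, (∀ i, c i ≠ 0 → n ≤ j i) ∧ ∀ ρ, ψ ρ = ∑ i, c i * φ i ρ)
    (h1 : ∀ i E, lev E < j i → dot (φ i) (vec E) = 0) (h0 : ∀ E, ζ E ≠ 0)
    (hU : Uq vec lev fun E => (ζ E : ℂ)) (hS : Sp ex lev) {η : Λ → ℝ}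
    (hη : ∀ i, ∑ E, (if lev E = j i then
      ζ E * (∑ l, (ex E l : ℝ) * η l) * ((dot (φ i) (vec E) : ℚ) : ℝ) else 0) = 0) : η = 0 := by
  classical
  obtain ⟨α, hα⟩ : ∃ α : Ω → ℝ, ∀ E, α E = ∑ l, (ex E l : ℝ) * η l := ⟨_, fun _ => rfl⟩
  simp_rw [← hα] at hη
  -- the relations
  have hR : ∀ n, InR vec lev n fun E => ((ζ E * α E : ℝ) : ℂ) := by
    intro n ψ hψ
    obtain ⟨c, hc, hc'⟩ := h2 n ψ hψ
    have h3 : ∀ E, dot ψ (vec E) = ∑ i, c i * dot (φ i) (vec E) := by
      intro E
      unfold dot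
      simp_rw [Finset.mul_sum]
      rw [Finset.sum_comm]
      refine Finset.sum_congr rfl fun ρ _ => ?_
      rw [hc' ρ, Finset.sum_mul]
      exact Finset.sum_congr rfl fun i _ => by ring
    have h4 : ∑ E, (if lev E = n then (ζ E * α E) * ((dot ψ (vec E) : ℚ) : ℝ) else 0) =
        ∑ i, (c i : ℝ) * ∑ E, (if lev E = n then
          (ζ E * α E) * ((dot (φ i) (vec E) : ℚ) : ℝ) else 0) := by
      simp_rw [Finset.mul_sum]
      rw [Finset.sum_comm]
      refine Finset.sum_congr rfl fun E _ => ?_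
      by_cases hE : lev E = n
      · simp_rw [if_pos hE]
        rw [h3 E]
        push_cast
        rw [Finset.mul_sum]
        exact Finset.sum_congr rfl fun i _ => by ring
      · simp_rw [if_neg hE]
        simp
    have h5 : ∑ E, (if lev E = n then (ζ E * α E) * ((dot ψ (vec E) : ℚ) : ℝ) else 0) = 0 := by
      rw [h4]
      refine Finset.sum_eq_zero fun i _ => ?_
      by_cases hi : c i = 0
      · rw [hi]
        simp
      rcases (hc i hi).eq_or_lt with hji | hji
      · rw [hji, hη i, mul_zero]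
      · rw [Finset.sum_eq_zero, mul_zero]
        intro E _
        by_cases hE : lev E = n
        · rw [if_pos hE, h1 i E (by omega)]
          simp
        · rw [if_neg hE]
    have h6 : ((∑ E, (if lev E = n then (ζ E * α E) * ((dot ψ (vec E) : ℚ) : ℝ) else 0) : ℝ) :
        ℂ) = 0 := by
      rw [h5, Complex.ofReal_zero]
    rw [Complex.ofReal_sum] at h6
    refine Eq.trans (Finset.sum_congr rfl fun E _ => ?_) h6
    by_cases hE : lev E = n
    · rw [if_pos hE, if_pos hE]
      push_cast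
      ring
    · rw [if_neg hE, if_neg hE, Complex.ofReal_zero]
  -- the limits depend only on the level
  have ht : ∀ n, ∃ t : ℂ, ∀ E, lev E = n → (α E : ℂ) = t := by
    intro n
    obtain ⟨t, ht⟩ := hU n _ (hR n)
    refine ⟨t, fun E hE => ?_⟩
    have h3 := ht E hE
    simp only [Complex.ofReal_mul] at h3
    rw [mul_comm t] at h3
    exact mul_left_cancel₀ (Complex.ofReal_ne_zero.2 (h0 E)) h3
  choose t ht using ht
  funext l
  obtain ⟨c, hc, hc'⟩ := hS fun l' => if l' = l then 1 else 0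
  have h3 : ∑ E, (c E : ℝ) * α E = η l := by
    simp_rw [hα, Finset.mul_sum]
    rw [Finset.sum_comm]
    have h4 : ∀ l', ∑ E, (c E : ℝ) * ((ex E l' : ℝ) * η l') = if l' = l then η l' else 0 := by
      intro l'
      have h5 := congrArg (fun q : ℚ => (q : ℝ)) (hc' l')
      push_cast at h5
      have h6 : ∑ E, (c E : ℝ) * ((ex E l' : ℝ) * η l') =
          (∑ E, (c E : ℝ) * (ex E l' : ℝ)) * η l' := by
        rw [Finset.sum_mul]
        exact Finset.sum_congr rfl fun E _ => by ring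
      rw [h6, h5]
      split_ifs <;> simp
    rw [Finset.sum_congr rfl fun l' _ => h4 l']
    simp
  have h4 : ∑ E, (c E : ℂ) * (α E : ℂ) = 0 := by
    have h5 : ∀ E ∈ (Finset.univ : Finset Ω), (c E : ℂ) * (α E : ℂ) =
        ∑ n ∈ Finset.univ.image lev, t n * (if lev E = n then (c E : ℂ) else 0) := by
      intro E _
      rw [Finset.sum_eq_single (lev E)]
      · rw [if_pos rfl, ht (lev E) E rfl, mul_comm]
      · intro n _ hn
        rw [if_neg hn.symm, mul_zero]
      · intro hE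
        exact absurd (Finset.mem_image_of_mem lev (Finset.mem_univ E)) hE
    rw [Finset.sum_congr rfl h5, Finset.sum_comm]
    refine Finset.sum_eq_zero fun n _ => ?_
    rw [← Finset.mul_sum]
    have h6 := congrArg (fun q : ℚ => (q : ℂ)) (hc n)
    have h7 : ((∑ E, (if lev E = n then c E else 0) : ℚ) : ℂ) =
        ∑ E, (if lev E = n then (c E : ℂ) else 0) := by
      rw [Rat.cast_sum]
      refine Finset.sum_congr rfl fun E _ => ?_
      split_ifs <;> simp
    rw [h7] at h6
    rw [h6]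
    simp
  have h5 : ((∑ E, (c E : ℝ) * α E : ℝ) : ℂ) = 0 := by
    rw [← h4]
    push_cast
    rfl
  rw [h3] at h5
  rw [Pi.zero_apply]
  exact Complex.ofReal_eq_zero.1 h5

end Pool.Agent.MPb0eF
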