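import Pool.Agent.Lib.MP_b0e20b_ag_G.CellD

/-!
# MP_b0e20b_ag, project G: the number of the cells
-/

set_option autoImplicit false

open scoped BigOperators

namespace Pool.Agent.MPb0eF

open MPb0eA (Pw Wp Alt)
open MPb0eC (box Ne NN KK)

variable {d : ℕ}

/-- The reversal of the labels. -/
def rv (r : Fin d → ℕ) (T : Fin d → ℕ) : Fin d → ℕ := fun i => r i - T i

theorem rv_rv {r T : Fin d → ℕ} (h : ∀ i, T i ≤ r i) : rv r (rv r T) = T := by
  funext i
  have := h i
  simp only [rv]
  omega

theorem rv_alt {r T U : Fin d → ℕ} (hT : ∀ i, T i ≤ r i) (hU : ∀ i, U i ≤ r i) (h : Alt T U) :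
    Alt (rv r T) (rv r U) := by
  intro i j hij hi hj hk
  have h1 : T i ≠ U i := fun e => hi (by simp only [rv, e])
  have h2 : T j ≠ U j := fun e => hj (by simp only [rv, e])
  have h3 : ∀ k, i < k → k < j → T k = U k := by
    intro k hk1 hk2
    have e1 := hk k hk1 hk2
    have e2 := hT k
    have e3 := hU k
    simp only [rv] at e1
    omega
  have h4 := h i j hij h1 h2 h3
  have e1 := hT i
  have e2 := hU i
  have e3 := hT j
  have e4 := hU j
  simp only [rv]
  constructor
  · intro h5
    have h6 : ¬ T i < U i := by omega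
    have h7 : ¬ U j < T j := fun h8 => h6 (h4.2 h8)
    omega
  · intro h5
    have h6 : ¬ U j < T j := by omega
    have h7 : ¬ T i < U i := fun h8 => h6 (h4.1 h8)
    omega

/-- The reversal of a core. -/
theorem Core.rev {lo up p r : Fin d → ℕ} {C : Finset (Fin d → ℕ)} (h : Core lo up p C)
    (h1 : ∀ i, up i ≤ r i) (hp : ∀ i, p i ≤ r i) (hlo : ∀ i, lo i ≤ r i) :
    Core (rv r up) (rv r lo) (rv r p) (C.image (rv r)) := by
  classical
  have hC : ∀ T ∈ C, ∀ i, T i ≤ r i := fun T hT i => (h.inB T hT i).2.trans (h1 i)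
  have hinj : Set.InjOn (rv r) (C : Set (Fin d → ℕ)) := by
    intro T hT U hU e
    rw [← rv_rv (hC T hT), e, rv_rv (hC U hU)]
  refine ⟨?_, ?_, ?_, ?_⟩
  · intro T' hT' U' hU'
    obtain ⟨T, hT, rfl⟩ := Finset.mem_image.1 hT'
    obtain ⟨U, hU, rfl⟩ := Finset.mem_image.1 hU'
    exact rv_alt (hC T hT) (hC U hU) (h.pw T hT U hU)
  · intro T' hT' i
    obtain ⟨T, hT, rfl⟩ := Finset.mem_image.1 hT'
    have e1 := h.inB T hT i
    simp only [rv]
    omega
  · intro i b hb1 hb2
    have e1 := h1 i
    have e2 := hlo i
    simp only [rv] at hb1 hb2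
    obtain ⟨T, hT, hTi⟩ := h.used i (r i - b) (by omega) (by omega)
    refine ⟨rv r T, Finset.mem_image_of_mem _ hT, ?_⟩
    simp only [rv, hTi]
    omega
  · obtain ⟨lam, hw, h0⟩ := h.wt
    refine ⟨fun T => lam (rv r T), ⟨?_, ?_⟩, ?_⟩
    · rw [Finset.sum_image hinj, ← hw.one]
      exact Finset.sum_congr rfl fun T hT => by rw [rv_rv (hC T hT)]
    · intro i b
      have e1 : ∑ T ∈ C.image (rv r) with T i = b, lam (rv r T) =
          ∑ T ∈ C with rv r T i = b, lam T := by
        rw [Finset.filter_image, Finset.sum_image]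
        · refine Finset.sum_congr rfl fun T hT => ?_
          rw [rv_rv (hC T (Finset.mem_filter.1 hT).1)]
        · intro T hT U hU e
          exact hinj (Finset.mem_filter.1 hT).1 (Finset.mem_filter.1 hU).1 e
      rw [e1]
      by_cases hb : b ≤ r i
      · have e2 : (C.filter fun T => rv r T i = b) = C.filter fun T => T i = r i - b := by
          refine Finset.filter_congr fun T hT => ?_
          have := hC T hT i
          simp only [rv]
          omega
        rw [e2, hw.marg i (r i - b)]
        have e3 := hp i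
        have e4 : (r i - b = p i) ↔ (b = rv r p i) := by
          simp only [rv]
          omega
        simp only [e4]
      · have e2 : (C.filter fun T => rv r T i = b) = ∅ := by
          rw [Finset.filter_eq_empty_iff]
          intro T hT
          simp only [rv]
          omega
        rw [e2, Finset.sum_empty, if_neg]
        simp only [rv]
        omega
    · intro T' hT'
      obtain ⟨T, hT, rfl⟩ := Finset.mem_image.1 hT'
      simp only [rv_rv (hC T hT)]
      exact h0 T hT

theorem rv_zero (r : Fin d → ℕ) : rv r 0 = r := by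
  funext i
  simp [rv]

theorem rv_self (r : Fin d → ℕ) : rv r r = 0 := by
  funext i
  simp [rv]

/-- The number of the cores with the reference `r`. -/
theorem card_rev {lo r : Fin d → ℕ} (hlo : ∀ i, lo i ≤ r i) :
    {C : Finset (Fin d → ℕ) | Core lo r r C}.ncard = Dc (r - lo) := by
  classical
  have hsub : r - lo = rv r lo := rfl
  have hback : rv r (rv r lo) = lo := rv_rv hlo
  unfold Dc
  refine Set.ncard_congr (fun C _ => C.image (rv r)) ?_ ?_ ?_
  · intro C hC
    have h1 := Core.rev hC (r := r) (fun i => le_rfl) (fun i => le_rfl) hlo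
    rw [rv_self] at h1
    exact h1
  · intro C C' hC hC' e
    have h1 : ∀ {C : Finset (Fin d → ℕ)}, Core lo r r C → (C.image (rv r)).image (rv r) = C := by
      intro C hC
      rw [Finset.image_image]
      refine (Finset.image_congr (g := id) ?_).trans Finset.image_id
      intro T hT
      exact rv_rv fun i => (hC.inB T hT i).2
    rw [← h1 hC, ← h1 hC', e]
  · intro C' hC'
    have hC'' : Core 0 (rv r lo) 0 C' := hC'
    refine ⟨C'.image (rv r), ?_, ?_⟩
    · have h1 := Core.rev hC'' (r := r) (fun i => Nat.sub_le _ _) (fun i => Nat.zero_le _)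
        (fun i => Nat.zero_le _)
      rw [rv_zero, hback] at h1
      exact h1
    · rw [Finset.image_image]
      refine (Finset.image_congr (g := id) ?_).trans Finset.image_id
      intro T hT
      exact rv_rv fun i => ((hC''.inB T hT i).2).trans (Nat.sub_le _ _)

theorem mem_box {n a : Fin d → ℕ} : a ∈ box n ↔ ∀ i, a i ≤ n i := by
  rw [box, Fintype.mem_piFinset]
  simp only [Finset.mem_range, Nat.lt_succ_iff]

/-- The sum over the cells of a function of `J`. -/
theorem sum_cells (n : Fin d → ℕ) (f : Finset (Fin d) → ℕ) :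
    ∑ c ∈ cells n, f c.1 = f ∅ * Dc n + ∑ J ∈ Finset.univ.filter
      (fun J : Finset (Fin d) => (∀ i ∈ J, 1 ≤ n i) ∧ J ≠ ∅),
        f J * Ne Dc (n - MPb0eC.ind J) := by
  classical
  -- the cells with given J and r
  have hcnt : ∀ (P : Finset (Fin d → ℕ) → Prop), (∀ C, P C → C ⊆ box n) →
      ((box n).powerset.filter P).card = {C | P C}.ncard := by
    intro P hP
    rw [← Set.ncard_coe_finset]
    congr 1
    ext C
    simp only [Finset.coe_filter, Finset.mem_powerset, Set.mem_setOf_eq]
    exact ⟨fun h => h.2, fun h => ⟨hP C h, h⟩⟩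
  have h1 : ∑ c ∈ cells n, f c.1 = ∑ J : Finset (Fin d), ∑ r ∈ box n,
      f J * {C | IsCel n (J, r, C)}.ncard := by
    unfold cells
    rw [Finset.sum_filter, Finset.sum_product]
    refine Finset.sum_congr rfl fun J _ => ?_
    rw [Finset.sum_product]
    refine Finset.sum_congr rfl fun r hr => ?_
    have h2 : ∑ C ∈ (box n).powerset, (if IsCel n (J, r, C) then f J else 0) =
        f J * ((box n).powerset.filter fun C => IsCel n (J, r, C)).card := by
      rw [← Finset.sum_filter, Finset.sum_const, smul_eq_mul, mul_comm]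
    rw [h2, hcnt]
    intro C hC T hT
    rw [mem_box]
    intro i
    rcases hC with ⟨-, h4, h5⟩ | ⟨-, -, h6, h7⟩
    · exact (h5.inB T hT i).2
    · exact (h7.inB T hT i).2.trans (h6 i)
  rw [h1, ← Finset.add_sum_erase _ _ (Finset.mem_univ (∅ : Finset (Fin d)))]
  congr 1
  · have h2 : ∀ r ∈ box n, r ≠ n → f ∅ * {C | IsCel n (∅, r, C)}.ncard = 0 := by
      intro r _ hr
      have : {C | IsCel n (∅, r, C)} = (∅ : Set (Finset (Fin d → ℕ))) := by
        ext C
        simp only [Set.mem_setOf_eq, Set.mem_empty_iff_false, iff_false]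
        rintro (h3 | h3)
        · exact hr h3.2.1
        · exact h3.1 rfl
      rw [this, Set.ncard_empty, mul_zero]
    rw [Finset.sum_eq_single n h2 (fun h => absurd (mem_box.2 fun i => le_rfl) h)]
    congr 1
    unfold Dc
    congr 1
    ext C
    simp only [Set.mem_setOf_eq]
    constructor
    · rintro (h3 | h3)
      · exact h3.2.2
      · exact absurd rfl h3.1
    · intro h3
      exact Or.inl ⟨rfl, rfl, h3⟩
  · have h2 : ∀ J ∈ Finset.univ.erase (∅ : Finset (Fin d)),
        (∑ r ∈ box n, f J * {C | IsCel n (J, r, C)}.ncard) =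
          if (∀ i ∈ J, 1 ≤ n i) ∧ J ≠ ∅ then f J * Ne Dc (n - MPb0eC.ind J) else 0 := by
      intro J hJ
      have hJ0 : J ≠ ∅ := (Finset.mem_erase.1 hJ).1
      have h3 : ∀ r ∈ box n, {C | IsCel n (J, r, C)}.ncard =
          if ∀ i ∈ J, 1 ≤ r i then Dc (r - MPb0eC.ind J) else 0 := by
        intro r hr
        by_cases h4 : ∀ i ∈ J, 1 ≤ r i
        · rw [if_pos h4, ← card_rev (MPb0eC.ind_le.2 h4)]
          congr 1
          ext C
          simp only [Set.mem_setOf_eq]
          constructor
          · rintro (h5 | h5)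
            · exact absurd h5.1 hJ0
            · exact h5.2.2.2
          · intro h5
            exact Or.inr ⟨hJ0, h4, mem_box.1 hr, h5⟩
        · rw [if_neg h4]
          have : {C | IsCel n (J, r, C)} = (∅ : Set (Finset (Fin d → ℕ))) := by
            ext C
            simp only [Set.mem_setOf_eq, Set.mem_empty_iff_false, iff_false]
            rintro (h5 | h5)
            · exact hJ0 h5.1
            · exact h4 h5.2.1
          rw [this, Set.ncard_empty]
      rw [← Finset.mul_sum, Finset.sum_congr rfl h3]
      by_cases h4 : ∀ i ∈ J, 1 ≤ n i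
      · rw [if_pos ⟨h4, hJ0⟩]
        congr 1
        rw [← Finset.sum_filter]
        unfold MPb0eC.Ne
        refine Finset.sum_bij' (fun r _ => r - MPb0eC.ind J) (fun a _ => a + MPb0eC.ind J)
          ?_ ?_ ?_ ?_ ?_
        · intro r hr
          rw [Finset.mem_filter, mem_box] at hr
          rw [mem_box]
          intro i
          exact Nat.sub_le_sub_right (hr.1 i) _
        · intro a ha
          rw [mem_box] at ha
          rw [Finset.mem_filter, mem_box]
          refine ⟨fun i => ?_, fun i hi => ?_⟩
          · have e1 : a i ≤ (n - MPb0eC.ind J) i := ha i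
            have e2 : MPb0eC.ind J i ≤ n i := MPb0eC.ind_le.2 h4 i
            simp only [Pi.sub_apply] at e1
            simp only [Pi.add_apply]
            omega
          · simp only [Pi.add_apply, MPb0eC.ind, if_pos hi]
            omega
        · intro r hr
          rw [Finset.mem_filter] at hr
          funext i
          have : MPb0eC.ind J i ≤ r i := MPb0eC.ind_le.2 hr.2 i
          simp only [Pi.add_apply, Pi.sub_apply]
          omega
        · intro a _
          funext i
          simp only [Pi.add_apply, Pi.sub_apply]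
          omega
        · intro r _
          rfl
      · rw [if_neg fun h5 => h4 h5.1]
        rw [Finset.sum_eq_zero, mul_zero]
        intro r hr
        rw [if_neg]
        intro h5
        exact h4 fun i hi => (h5 i hi).trans (mem_box.1 hr i)
    rw [Finset.sum_congr rfl h2, Finset.sum_erase _ (by simp), ← Finset.sum_filter]

theorem sum_mu (n : Fin d → ℕ) : ∑ c ∈ cells n, mu c = NN Dc n := by
  have h := sum_cells n fun J => if J = ∅ then 1 else J.card
  have h1 : ∑ c ∈ cells n, mu c = ∑ c ∈ cells n, (fun J : Finset (Fin d) =>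
      if J = ∅ then 1 else J.card) c.1 := rfl
  rw [h1, h, NN]
  simp only [if_true, one_mul]
  congr 1
  refine Finset.sum_congr rfl fun J hJ => ?_
  rw [if_neg (Finset.mem_filter.1 hJ).2.2]

theorem card_cells (n : Fin d → ℕ) : (cells n).card = KK Dc n := by
  have h := sum_cells n fun _ => 1
  rw [← Finset.card_eq_sum_ones, one_mul] at h
  rw [h, KK]
  congr 1
  exact Finset.sum_congr rfl fun J _ => one_mul _

end Pool.Agent.MPb0eF
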