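import Pool.Agent.Lib.MP_b0e20b_ag_G.Fz
import Pool.Agent.Lib.MP_b0e20b_ag_A.Cls
import Pool.Agent.Lib.MP_b0e20b_ag_X.Hex
import Pool.Agent.Lib.MP_b0e20b_ag_C.FDc

/-!
# MP_b0e20b_ag, project G: the final theorem (lower bound `3 * K ≥ 2 * N + 1`)
-/

set_option autoImplicit false

namespace Pool.Agent.MPb0eF

open MPb0eQ (Tensor total IsReal crit realCrit IsGenericNumber)

/-- For every format with at least three factors the attained numbers of real critical points are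
the odd numbers up to some odd `K` with `2 * N + 1 ≤ 3 * K`. -/
theorem main_two_thirds {d : ℕ} (hd : 3 ≤ d) (n : Fin d → ℕ) (hn : ∀ i, 1 ≤ n i) :
    ∃ N K : ℕ, IsGenericNumber n N ∧ Odd N ∧ Odd K ∧ K ≤ N ∧ 2 * N + 1 ≤ 3 * K ∧
      (∀ k : ℕ, (∃ T : Tensor n, total T = 1 ∧ IsReal T ∧ (crit T).encard = N ∧
        (realCrit T).encard = k) ↔ Odd k ∧ k ≤ K) ∧
      ∀ m : ℕ, (∀ i, m ≤ n i) → 2 * (1 + 2 ^ (d - 1)) ^ m - 1 ≤ K := by
  have hd0 : 0 < d := by omega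
  exact fin_of hd n hn (fun _ _ _ h1 _ hG => cq h1 hn hd0 hG)
    fun _ _ _ h1 h2 hG => bq_final (MPb0eA.hex hd0 hn h2 hG) (hcl hd0 hG (clsH h1 hn hd0))
      (hun (clsH h1 hn hd0)) (MPb0eC.mac_Dc d)

end Pool.Agent.MPb0eF
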