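import Pool.Agent.Lib.MP_b0e20b_ag_G.Fz
import Pool.Agent.Lib.MP_b0e20b_ag_A.Cls

/-!
# MP_b0e20b_ag, project G: the weak form (lower bound `N ≤ d * K`)
-/

set_option autoImplicit false

namespace Pool.Agent.MPb0eF

open MPb0eQ (Tensor total IsReal crit realCrit IsGenericNumber)

/-- For every format with at least three factors the attained numbers of real critical points are
the odd numbers up to some odd `K` with `N ≤ d * K`. -/
theorem main_weak {d : ℕ} (hd : 3 ≤ d) (n : Fin d → ℕ) (hn : ∀ i, 1 ≤ n i) :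
    ∃ N K : ℕ, IsGenericNumber n N ∧ Odd N ∧ Odd K ∧ K ≤ N ∧ N ≤ d * K ∧
      (∀ k : ℕ, (∃ T : Tensor n, total T = 1 ∧ IsReal T ∧ (crit T).encard = N ∧
        (realCrit T).encard = k) ↔ Odd k ∧ k ≤ K) ∧
      ∀ m : ℕ, (∀ i, m ≤ n i) → 2 * (1 + 2 ^ (d - 1)) ^ m - 1 ≤ K :=
  weak_of hd n hn fun _ _ _ h1 _ hG => cq h1 hn (by omega) hG

end Pool.Agent.MPb0eF
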