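import Pool.Agent.Lib.MP_b0e20b_ag_A.AltX
import Pool.Agent.Lib.MP_b0e20b_ag_A.Lab
import Pool.Agent.Lib.MP_b0e20b_ag_A.Val
import Pool.Agent.Lib.MP_b0e20b_ag_X.XD

/-!
# MP_b0e20b_ag, project G: the heights with the properties for the blocks A and X
-/

set_option autoImplicit false

open scoped BigOperators

namespace Pool.Agent.MPb0eA

open MPb0eF MPb0eQ

variable {d : ℕ}

private theorem hgt_hh (n : Fin d → ℕ) (K : ℝ) :
    ∃ (h : (Fin d → ℕ) → ℝ) (r : Fin d → ℝ) (c H : ℝ), 0 < c ∧ K * c < H ∧ h 0 = H ∧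
      (∀ T, (∀ i, T i ≤ n i) → H - c ≤ h T ∧ h T ≤ H) ∧
      (∀ T, (∀ i, T i ≤ n i) → ∀ i b, b < T i → h T < h (Function.update T i b)) ∧
      (∀ T U, (∀ i, T i ≤ n i) → (∀ i, U i ≤ n i) → ¬ Alt T U → ∀ V W, Exc T U V W → Alt V W →
        h T + h U < h V + h W) ∧
      ∀ (a : NS (blk n) → ℤ) (e : Fin d → ℤ),
        ∑ S, (a S : ℝ) * h (tup S) + ∑ i, (e i : ℝ) * r i = 0 → a = 0 ∧ e = 0 := by
  classical
  set B : Finset (Fin d → ℕ) := Fintype.piFinset fun i => Finset.range (n i + 1) with hB
  have hmem : ∀ {T : Fin d → ℕ}, T ∈ B ↔ ∀ i, T i ≤ n i := by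
    intro T
    rw [hB, Fintype.mem_piFinset]
    simp only [Finset.mem_range, Nat.lt_succ_iff]
  obtain ⟨g, r, H₀, W, hg, hind⟩ := exists_heights (fun T : B => T.1) (2 * |K| + 1)
  have hzero : (0 : Fin d → ℕ) ∈ B := hmem.2 fun i => Nat.zero_le _
  set h : (Fin d → ℕ) → ℝ := fun T => if hT : T ∈ B then g ⟨T, hT⟩ else 0 with hh
  have hh1 : ∀ {T : Fin d → ℕ} (hT : T ∈ B), h T = g ⟨T, hT⟩ := fun hT => dif_pos hT
  have hle : ∀ T ∈ B, h T ≤ h 0 := by
    intro T hT
    by_cases hT0 : T = 0
    · rw [hT0]
    · rw [hh1 hT, hh1 hzero]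
      exact (hg.dec ⟨T, hT⟩ ⟨0, hzero⟩ (fun i => Nat.zero_le _) (fun h => hT0 h.symm)).le
  have habs := fun T (hT : T ∈ B) => abs_le.1 (hg.abs ⟨T, hT⟩)
  refine ⟨h, r, 2 * W, h 0, by linarith [hg.pos], ?_, rfl, ?_, ?_, ?_, ?_⟩
  · have h1 := (habs 0 hzero).1
    have h2 := hg.flat
    have h3 := hg.pos
    have h4 : K * W ≤ |K| * W := mul_le_mul_of_nonneg_right (le_abs_self K) h3.le
    rw [hh1 hzero]
    nlinarith
  · intro T hT
    have hT' := hmem.2 hT
    refine ⟨?_, hle T hT'⟩
    have h1 := (habs T hT').1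
    have h2 := (habs 0 hzero).2
    rw [hh1 hT', hh1 hzero]
    linarith
  · intro T hT i b hb
    have hT' := hmem.2 hT
    have hU : Function.update T i b ∈ B := by
      refine hmem.2 fun j => ?_
      by_cases hj : j = i
      · subst hj
        rw [Function.update_self]
        exact hb.le.trans (hT j)
      · rw [Function.update_of_ne hj]
        exact hT j
    rw [hh1 hT', hh1 hU]
    refine hg.dec ⟨T, hT'⟩ ⟨_, hU⟩ (fun j => ?_) fun he => ?_
    · change Function.update T i b j ≤ T j
      by_cases hj : j = i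
      · subst hj
        rw [Function.update_self]
        exact hb.le
      · rw [Function.update_of_ne hj]
    · have h1 := congrFun (show Function.update T i b = T from he) i
      rw [Function.update_self] at h1
      omega
  · intro T U hT hU hn V W' he ha
    have h1 := he.le hT hU
    rw [hh1 (hmem.2 hT), hh1 (hmem.2 hU), hh1 (hmem.2 h1.1), hh1 (hmem.2 h1.2)]
    exact hg.exc ⟨T, _⟩ ⟨U, _⟩ ⟨V, _⟩ ⟨W', _⟩ he ha hn
  · intro a e hae
    have htB : ∀ S : NS (blk n), tup S ∈ B := fun S => hmem.2 (mem_Mo.1 (tup_mem S)).2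
    set t : NS (blk n) → B := fun S => ⟨tup S, htB S⟩ with ht
    have htinj : Function.Injective t := by
      intro S S' hS
      exact tup_inj (congrArg Subtype.val hS)
    have h1 := hind (fun T => if hT : ∃ S, t S = T then a (Classical.choose hT) else 0) e (by
      rw [← hae]
      congr 1
      have h2 : ∀ T : B, T ∉ Finset.univ.image t →
          (((if hT : ∃ S, t S = T then a (Classical.choose hT) else 0 : ℤ)) : ℝ) * g T = 0 := by
        intro T hT
        rw [dif_neg, Int.cast_zero, zero_mul]
        rintro ⟨S, rfl⟩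
        exact hT (Finset.mem_image_of_mem _ (Finset.mem_univ _))
      rw [← Finset.sum_subset (Finset.subset_univ (Finset.univ.image t)) fun T _ hT => h2 T hT,
        Finset.sum_image fun _ _ _ _ h => htinj h]
      refine Finset.sum_congr rfl fun S _ => ?_
      have h3 : ∃ S', t S' = t S := ⟨S, rfl⟩
      rw [dif_pos h3, htinj (Classical.choose_spec h3), hh1 (htB S)])
    refine ⟨funext fun S => ?_, h1.2⟩
    have h3 : ∃ S', t S' = t S := ⟨S, rfl⟩
    have h4 := congrFun h1.1 (t S)
    simp only [dif_pos h3] at h4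
    rw [htinj (Classical.choose_spec h3)] at h4
    exact h4

/-- The heights for a format. -/
theorem exists_HX (n : Fin d → ℕ) :
    ∃ (h : (Fin d → ℕ) → ℝ) (r : Fin d → ℝ) (c H : ℝ), Hx n h H c ∧ HX n h c H ∧
      ∀ (a : NS (blk n) → ℤ) (e : Fin d → ℤ),
        ∑ S, (a S : ℝ) * h (tup S) + ∑ i, (e i : ℝ) * r i = 0 → a = 0 ∧ e = 0 := by
  classical
  obtain ⟨h, r, c, H, hc, hb, h0, hlo, hdec, hex, hind⟩ := hgt_hh n (20 * ((d : ℝ) + 1))
  have hle : ∀ T ∈ Mo n, ∀ i, T i ≤ n i := fun T hT => (mem_Mo.1 hT).2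
  -- lowering several coordinates
  have hdec' : ∀ (m : ℕ) (T U : Fin d → ℕ), (∀ i, U i ≤ n i) → (∀ i, T i ≤ U i) →
      (Finset.univ.filter fun i => T i ≠ U i).card = m + 1 → h U < h T := by
    intro m
    induction m with
    | zero =>
      intro T U hU hTU hm
      obtain ⟨i, hi⟩ := Finset.card_eq_one.1 hm
      have h1 : T i ≠ U i := by
        have : i ∈ Finset.univ.filter fun i => T i ≠ U i := by rw [hi]; simp
        exact (Finset.mem_filter.1 this).2
      have h2 : T = Function.update U i (T i) := by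
        funext j
        by_cases hj : j = i
        · subst hj
          rw [Function.update_self]
        · rw [Function.update_of_ne hj]
          by_contra h3
          have : j ∈ Finset.univ.filter fun i => T i ≠ U i := by simp [h3]
          rw [hi, Finset.mem_singleton] at this
          exact hj this
      rw [h2]
      exact hdec U hU i (T i) (lt_of_le_of_ne (hTU i) h1)
    | succ m ih =>
      intro T U hU hTU hm
      obtain ⟨i, hi⟩ : (Finset.univ.filter fun i => T i ≠ U i).Nonempty := by
        rw [← Finset.card_pos, hm]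
        omega
      have h1 : T i ≠ U i := (Finset.mem_filter.1 hi).2
      have h2 := hdec U hU i (T i) (lt_of_le_of_ne (hTU i) h1)
      refine h2.trans (ih T (Function.update U i (T i)) ?_ ?_ ?_)
      · intro j
        by_cases hj : j = i
        · subst hj
          rw [Function.update_self]
          exact (hTU j).trans (hU j)
        · rw [Function.update_of_ne hj]
          exact hU j
      · intro j
        by_cases hj : j = i
        · subst hj
          rw [Function.update_self]
        · rw [Function.update_of_ne hj]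
          exact hTU j
      · have h3 : (Finset.univ.filter fun j => T j ≠ Function.update U i (T i) j) =
            (Finset.univ.filter fun j => T j ≠ U j).erase i := by
          ext j
          rw [Finset.mem_erase, Finset.mem_filter, Finset.mem_filter]
          by_cases hj : j = i
          · subst hj
            simp
          · rw [Function.update_of_ne hj]
            simp [hj]
        rw [h3, Finset.card_erase_of_mem hi, hm]
        rfl
  refine ⟨h, r, c, H, ⟨hc, hb, ?_, ?_, ?_⟩, ⟨hc, hb, h0, hlo, hdec, ?_⟩, hind⟩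
  · intro T hT
    have h1 := hlo T (hle T hT)
    rw [abs_le]
    constructor <;> linarith [h1.1, h1.2]
  · intro T _ U hU hTU hne
    have h1 : (Finset.univ.filter fun i => T i ≠ U i).card ≠ 0 := by
      intro h2
      rw [Finset.card_eq_zero, Finset.filter_eq_empty_iff] at h2
      exact hne (funext fun i => by simpa using h2 (Finset.mem_univ i))
    obtain ⟨m, hm⟩ := Nat.exists_eq_succ_of_ne_zero h1
    exact hdec' m T U (hle U hU) hTU hm
  · intro T hT U hU hn V _ W _ he ha
    exact hex T U (hle T hT) (hle U hU) hn V W he ha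
  · intro T U hT hU hn
    obtain ⟨V, W, he, ha⟩ := exists_alt T U
    have h1 := he.le hT hU
    exact ⟨V, W, he, ha, h1.1, h1.2, hex T U hT hU hn V W he ha⟩

end Pool.Agent.MPb0eA
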