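import Pool.Agent.Lib.MP_b0e20b_ag_G.Asm
import Pool.Agent.Lib.MP_b0e20b_ag_G.Cnc
import Pool.Agent.Lib.MP_b0e20b_ag_G.Hgt
import Pool.Agent.Lib.MP_b0e20b_ag_C.Two

/-!
# MP_b0e20b_ag, project G: the final theorem from the blocks
-/

set_option autoImplicit false

open scoped BigOperators Topology

namespace Pool.Agent.MPb0eF

open MPb0eA (Pw Wp Mo vM Cf lb hE tup Hx HX)
open MPb0eQ (blk Kx Tensor total IsReal crit realCrit IsGenericNumber)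
open MPb0eC (Mac)

variable {d : ℕ}

/-- The heights are generic for the elements. -/
theorem gen_hE {n : Fin d → ℕ} {hh : (Fin d → ℕ) → ℝ}
    {r : Fin d → ℝ} (hind : ∀ (a : NS (blk n) → ℤ) (e : Fin d → ℤ),
      ∑ S, (a S : ℝ) * hh (tup S) + ∑ i, (e i : ℝ) * r i = 0 → a = 0 ∧ e = 0) :
    Gen (hE n hh) (eF (blk n)) := by
  refine genF ?_
  intro c hc
  exact (hind c 0 (by simpa using hc)).1

/-- The final theorem from the condition `CQ` and the balance condition. -/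
theorem fin_of (hd : 3 ≤ d) (n : Fin d → ℕ) (hn : ∀ i, 1 ≤ n i)
    (hCQ : ∀ (hh : (Fin d → ℕ) → ℝ) (c H : ℝ), Hx n hh H c → HX n hh c H →
      Gen (hE n hh) (eF (blk n)) → CQ d (vF (blk n)) (eF (blk n)) (hE n hh) (moF (blk n)))
    (hBQ : ∀ (hh : (Fin d → ℕ) → ℝ) (c H : ℝ), Hx n hh H c → HX n hh c H →
      Gen (hE n hh) (eF (blk n)) → BQ 3 2 (vF (blk n)) (eF (blk n)) (hE n hh) (moF (blk n))) :
    ∃ N K : ℕ, IsGenericNumber n N ∧ Odd N ∧ Odd K ∧ K ≤ N ∧ 2 * N + 1 ≤ 3 * K ∧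
      (∀ k : ℕ, (∃ T : Tensor n, total T = 1 ∧ IsReal T ∧ (crit T).encard = N ∧
        (realCrit T).encard = k) ↔ Odd k ∧ k ≤ K) ∧
      ∀ m : ℕ, (∀ i, m ≤ n i) → 2 * (1 + 2 ^ (d - 1)) ^ m - 1 ≤ K := by
  obtain ⟨hh, r, c, H, h1, h2, hind⟩ := MPb0eA.exists_HX n
  have hG := gen_hE hind
  obtain ⟨N, K, h3, h4, h5, h6, h7, h8, h9⟩ := mainB hd n hn (A := 3) (B := 2)
    ⟨fun S => hh (tup S), r, hind, hCQ hh c H h1 h2 hG, Or.inr (hBQ hh c H h1 h2 hG)⟩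
  refine ⟨N, K, h3, h4, h5, h6, ?_, h8, h9⟩
  obtain ⟨k, hk⟩ := h5
  omega

/-- The weak form. -/
theorem weak_of (hd : 3 ≤ d) (n : Fin d → ℕ) (hn : ∀ i, 1 ≤ n i)
    (hCQ : ∀ (hh : (Fin d → ℕ) → ℝ) (c H : ℝ), Hx n hh H c → HX n hh c H →
      Gen (hE n hh) (eF (blk n)) → CQ d (vF (blk n)) (eF (blk n)) (hE n hh) (moF (blk n))) :
    ∃ N K : ℕ, IsGenericNumber n N ∧ Odd N ∧ Odd K ∧ K ≤ N ∧ N ≤ d * K ∧
      (∀ k : ℕ, (∃ T : Tensor n, total T = 1 ∧ IsReal T ∧ (crit T).encard = N ∧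
        (realCrit T).encard = k) ↔ Odd k ∧ k ≤ K) ∧
      ∀ m : ℕ, (∀ i, m ≤ n i) → 2 * (1 + 2 ^ (d - 1)) ^ m - 1 ≤ K := by
  obtain ⟨hh, r, c, H, h1, h2, hind⟩ := MPb0eA.exists_HX n
  have hG := gen_hE hind
  exact mainG hd n hn ⟨fun S => hh (tup S), r, hind, hCQ hh c H h1 h2 hG⟩

/-- The balance condition from the blocks. -/
theorem bq_final {n : Fin d → ℕ} {hh : (Fin d → ℕ) → ℝ}
    (hex : ∀ c, IsCel n c → ∃ w, Ty (vF (blk n)) (eF (blk n)) (hE n hh) (moF (blk n)) w (mu c) ∧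
      Tp n hh w c)
    (hcl : ∀ w m, Ty (vF (blk n)) (eF (blk n)) (hE n hh) (moF (blk n)) w m →
      ∃ c, IsCel n c ∧ Tp n hh w c ∧ m ≤ mu c)
    (hun : ∀ w w' m m' c, IsCel n c → Ty (vF (blk n)) (eF (blk n)) (hE n hh) (moF (blk n)) w m →
      Ty (vF (blk n)) (eF (blk n)) (hE n hh) (moF (blk n)) w' m' → Tp n hh w c → Tp n hh w' c →
      w = w')
    (hM : Mac (Dc : (Fin d → ℕ) → ℕ)) :
    BQ 3 2 (vF (blk n)) (eF (blk n)) (hE n hh) (moF (blk n)) := by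
  refine bq_cells hex hcl hun ?_
  rw [sum_mu, card_cells]
  have := MPb0eC.two_thirds hM n
  omega

end Pool.Agent.MPb0eF
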