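import Pool.Agent.Lib.MP_b0e20b_ag_G.Defs

/-!
# MP_b0e20b_ag, project G: the number of the leading points
-/

set_option autoImplicit false

open scoped BigOperators Topology

namespace Pool.Agent.MPb0eF

variable {Ω Λ Ρ : Type} [Fintype Ω] [Fintype Λ] [Fintype Ρ] [DecidableEq Λ] {vec : Ω → Ρ → ℤ}
  {ex : Ω → Λ → ℤ} {h : Ω → ℝ} {k : Ω → ℝ} {w : Λ → ℝ} {mo : Ω → Bool}

omit [Fintype Ω] [DecidableEq Λ] in
private theorem Ro_eq {lev : Ω → ℕ} (hl : Lev h ex w lev) (E E' : Ω) :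
    lev E = lev E' ↔ val h ex w E = val h ex w E' := by
  constructor
  · exact hl.1 E E'
  · intro h1
    rcases lt_trichotomy (lev E) (lev E') with h2 | h2 | h2
    · exact absurd h1 (hl.2 E E' h2).ne'
    · exact h2
    · exact absurd h1 (hl.2 E' E h2).ne

omit [Fintype Ω] [DecidableEq Λ] in
private theorem Ro_lt {lev : Ω → ℕ} (hl : Lev h ex w lev) (E E' : Ω) :
    lev E < lev E' ↔ val h ex w E' < val h ex w E := by
  constructor
  · exact hl.2 E E'
  · intro h1
    rcases lt_trichotomy (lev E) (lev E') with h2 | h2 | h2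
    · exact h2
    · exact absurd (hl.1 E E' h2) h1.ne'
    · exact absurd (hl.2 E' E h2) h1.le.not_gt

/-- The flag data of `w` are unique: for two level functions the levels agree as a partition and as
an order, and the ratios of the `ζ` inside the levels are the same. Proof: the levels are given by
`val h ex w`; `InR vec lev j` depends only on the sets of the elements of level `j` and `< j`; then
`Uq`. -/
theorem flag_unique {lev lev' : Ω → ℕ} {ζ ζ' : Ω → ℂ} (hl : Lev h ex w lev)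
    (hl' : Lev h ex w lev') (h0 : ∀ E, ζ E ≠ 0) (h0' : ∀ E, ζ' E ≠ 0)
    (hR' : ∀ j, InR vec lev' j ζ') (hU : Uq vec lev ζ) :
    (∀ E E', lev E = lev E' ↔ lev' E = lev' E') ∧
      ∀ E E', lev E = lev E' → ζ' E' / ζ' E = ζ E' / ζ E := by
  have h1 : ∀ E E', lev E = lev E' ↔ lev' E = lev' E' := fun E E' =>
    (Ro_eq hl E E').trans (Ro_eq hl' E E').symm
  have h2 : ∀ E E', lev E < lev E' ↔ lev' E < lev' E' := fun E E' =>
    (Ro_lt hl E E').trans (Ro_lt hl' E E').symm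
  refine ⟨h1, fun E E' hE => ?_⟩
  obtain ⟨t, ht⟩ := hU (lev E) ζ' fun φ hφ => by
    have h3 := hR' (lev' E) φ fun E1 h4 => hφ E1 ((h2 E1 E).2 h4)
    exact (Finset.sum_congr rfl fun E1 _ => if_congr (h1 E1 E) rfl rfl).trans h3
  have h3 := ht E rfl
  have h4 := ht E' hE.symm
  have h5 : t ≠ 0 := by
    rintro rfl
    rw [zero_mul] at h3
    exact h0' E h3
  rw [h3, h4, mul_div_mul_left _ _ h5]

omit [Fintype Λ] [DecidableEq Λ] in
private theorem Ro_prod {lev : Ω → ℕ} {c : Ω → ℤ} (hc : BSum lev c) {f : Ω → ℂ}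
    (hf0 : ∀ E, f E ≠ 0) (hf : ∀ E E', lev E = lev E' → f E = f E') :
    ∏ E, f E ^ c E = 1 := by
  classical
  rw [← Finset.prod_fiberwise_of_maps_to (s := Finset.univ) (t := Finset.univ.image lev)
    (g := lev) fun E _ => Finset.mem_image_of_mem _ (Finset.mem_univ E)]
  refine Finset.prod_eq_one fun j hj => ?_
  obtain ⟨E₀, -, rfl⟩ := Finset.mem_image.1 hj
  have h1 : ∏ E ∈ Finset.univ.filter (fun E => lev E = lev E₀), f E ^ c E =
      ∏ E ∈ Finset.univ.filter (fun E => lev E = lev E₀), f E₀ ^ c E :=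
    Finset.prod_congr rfl fun E hE => by rw [hf E E₀ (Finset.mem_filter.1 hE).2]
  have h2 : ∀ s : Finset Ω, ∏ E ∈ s, f E₀ ^ c E = f E₀ ^ ∑ E ∈ s, c E := by
    intro s
    induction s using Finset.induction_on with
    | empty => rw [Finset.prod_empty, Finset.sum_empty, zpow_zero]
    | insert a s ha ih => rw [Finset.prod_insert ha, Finset.sum_insert ha, ih,
        zpow_add₀ (hf0 E₀)]
  rw [h1, h2, Finset.sum_filter, hc (lev E₀), zpow_zero]

omit [Fintype Λ] [DecidableEq Λ] in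
private theorem Ro_mono {lev lev' : Ω → ℕ} (h1 : ∀ E E', lev E = lev E' ↔ lev' E = lev' E')
    {v : Λ → ℤ} (hv : InG ex lev v) : InG ex lev' v := by
  obtain ⟨c, hc, hcv⟩ := hv
  refine ⟨c, fun j => ?_, hcv⟩
  by_cases hj : ∃ E, lev' E = j
  · obtain ⟨E₀, rfl⟩ := hj
    exact (Finset.sum_congr rfl fun E _ => if_congr (h1 E E₀).symm rfl rfl).trans (hc (lev E₀))
  · refine Finset.sum_eq_zero fun E _ => if_neg fun h2 => hj ⟨E, h2⟩

/-- Two leading points for the same `w`: the quotient has the value one at all elements of the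
lattice. -/
theorem quot_one {x0 x1 : Λ → ℂ} (hk : ∀ E, k E ≠ 0) (h0 : FD vec ex h k w x0)
    (h1 : FD vec ex h k w x1) : ∃ lev : Ω → ℕ, Lev h ex w lev ∧
      ∀ v : Λ → ℤ, InG ex lev v → ∏ l, (x1 l / x0 l) ^ v l = 1 := by
  obtain ⟨hx0, lev, ζ, hl, hζ, hR, hU, hS, hE⟩ := h0
  obtain ⟨hx1, lev', ζ', hl', hζ', hR', hU', hS', hE'⟩ := h1
  obtain ⟨h1, h2⟩ := flag_unique hl hl' hζ hζ' hR' hU
  refine ⟨lev, hl, ?_⟩
  rintro v ⟨c, hc, hcv⟩
  have hm0 : ∀ E, ∏ l, x0 l ^ ex E l ≠ 0 := fun E =>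
    Finset.prod_ne_zero_iff.2 fun l _ => zpow_ne_zero _ (hx0 l)
  have hm1 : ∀ E, ∏ l, x1 l ^ ex E l ≠ 0 := fun E =>
    Finset.prod_ne_zero_iff.2 fun l _ => zpow_ne_zero _ (hx1 l)
  have hk' : ∀ E, (k E : ℂ) ≠ 0 := fun E => Complex.ofReal_ne_zero.2 (hk E)
  have h3 : ∏ E, ((∏ l, x1 l ^ ex E l) / ∏ l, x0 l ^ ex E l) ^ c E = 1 := by
    refine Ro_prod hc (fun E => div_ne_zero (hm1 E) (hm0 E)) fun E E' hEE => ?_
    have e1 := hE E E' hEE
    have e2 := hE' E E' ((h1 E E').1 hEE)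
    have e3 := h2 E E' hEE
    rw [div_eq_div_iff (hζ' E) (hζ E)] at e3
    rw [div_eq_div_iff (hm0 E) (hm0 E')]
    have h4 : (k E : ℂ) * k E' * (ζ E * ζ' E') ≠ 0 :=
      mul_ne_zero (mul_ne_zero (hk' E) (hk' E')) (mul_ne_zero (hζ E) (hζ' E'))
    refine mul_left_cancel₀ h4 ?_
    linear_combination (k E' : ℂ) * (∏ l, x0 l ^ ex E' l) * ζ E * e2 -
      (k E' : ℂ) * (∏ l, x1 l ^ ex E' l) * ζ' E * e1 -
      (k E : ℂ) * k E' * (∏ l, x0 l ^ ex E l) * (∏ l, x1 l ^ ex E' l) * e3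
  rw [← h3]
  have h4 : ∀ l, (x1 l / x0 l) ^ v l = ∏ E, ((x1 l / x0 l) ^ ex E l) ^ c E := by
    intro l
    rw [← hcv l]
    have h5 : ∀ s : Finset Ω, (x1 l / x0 l) ^ (∑ E ∈ s, c E * ex E l) =
        ∏ E ∈ s, ((x1 l / x0 l) ^ ex E l) ^ c E := by
      classical
      intro s
      induction s using Finset.induction_on with
      | empty => rw [Finset.prod_empty, Finset.sum_empty, zpow_zero]
      | insert a s ha ih => rw [Finset.prod_insert ha, Finset.sum_insert ha,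
          zpow_add₀ (div_ne_zero (hx1 l) (hx0 l)), ih, ← zpow_mul, mul_comm (ex a l)]
    exact h5 Finset.univ
  rw [Finset.prod_congr rfl fun l _ => h4 l, Finset.prod_comm]
  refine Finset.prod_congr rfl fun E _ => ?_
  rw [Finset.prod_zpow, ← Finset.prod_div_distrib]
  congr 1
  exact Finset.prod_congr rfl fun l _ => div_zpow _ _ _

/-- There are at most `m` leading points for `w`. Proof: if there is one, `x0`, then `quot_one` (the
levels are the ones of `Ty` by `flag_unique`) and `Cyc` (`gen`, `ord`) give that the map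
`x1 ↦ x1 l0 / x0 l0` is injective and its values are `m`-th roots of unity. -/
theorem card_le (hk : ∀ E, k E ≠ 0) {m : ℕ} (hT : Ty vec ex h mo w m) :
    {x0 : Λ → ℂ | FD vec ex h k w x0}.encard ≤ m := by
  obtain ⟨lev, ζ, l0, hl, hζ, hR, hU, hS, hC⟩ := hT
  rcases Set.eq_empty_or_nonempty {x0 : Λ → ℂ | FD vec ex h k w x0} with h1 | ⟨x0, hx0⟩
  · rw [h1, Set.encard_empty]
    exact zero_le
  have hx0' : ∀ l, x0 l ≠ 0 := hx0.1
  have hq : ∀ x1, FD vec ex h k w x1 → ∀ v : Λ → ℤ, InG ex lev v →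
      ∏ l, (x1 l / x0 l) ^ v l = 1 := by
    intro x1 hx1 v hv
    obtain ⟨lev', hl', h2⟩ := quot_one hk hx0 hx1
    exact h2 v (Ro_mono (fun E E' => (Ro_eq hl E E').trans (Ro_eq hl' E E').symm) hv)
  have h2 : Set.MapsTo (fun x1 : Λ → ℂ => x1 l0 / x0 l0) {x0 : Λ → ℂ | FD vec ex h k w x0}
      (Polynomial.nthRootsFinset m (1 : ℂ) : Set ℂ) := by
    intro x1 hx1
    obtain ⟨c, hc, hcl, -⟩ := hC.ord
    have h3 := hq x1 hx1 (fun l => if l = l0 then (m : ℤ) else 0) ⟨c, hc, hcl⟩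
    rw [Finset.prod_eq_single l0 (fun l _ hne => by rw [if_neg hne, zpow_zero])
      (fun h4 => absurd (Finset.mem_univ l0) h4), if_pos rfl, zpow_natCast] at h3
    rw [Finset.mem_coe, Polynomial.mem_nthRootsFinset hC.pos]
    exact h3
  have h3 : Set.InjOn (fun x1 : Λ → ℂ => x1 l0 / x0 l0) {x0 : Λ → ℂ | FD vec ex h k w x0} := by
    intro x1 hx1 x2 hx2 h12
    have h4 : ∀ x, FD vec ex h k w x → ∀ l (a : ℤ),
        InG ex lev (fun l' => (if l' = l then 1 else 0) - a * if l' = l0 then 1 else 0) →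
        x l / x0 l = (x l0 / x0 l0) ^ a := by
      intro x hx l a ha
      have h5 := hq x hx _ ha
      have hne : ∀ l, x l / x0 l ≠ 0 := fun l => div_ne_zero (hx.1 l) (hx0' l)
      rw [Finset.prod_congr rfl fun l' _ => zpow_sub₀ (hne l') _ _, Finset.prod_div_distrib,
        Finset.prod_eq_single l (fun l' _ h6 => by rw [if_neg h6, zpow_zero])
          (fun h6 => absurd (Finset.mem_univ l) h6), if_pos rfl, zpow_one,
        Finset.prod_eq_single l0 (fun l' _ h6 => by rw [if_neg h6, mul_zero, zpow_zero])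
          (fun h6 => absurd (Finset.mem_univ l0) h6), if_pos rfl, mul_one] at h5
      exact (div_eq_one_iff_eq (zpow_ne_zero _ (hne l0))).1 h5
    funext l
    obtain ⟨a, ha⟩ := hC.gen l
    have h5 := h4 x1 hx1 l a ha
    have h6 := h4 x2 hx2 l a ha
    have h12' : x1 l0 / x0 l0 = x2 l0 / x0 l0 := h12
    rw [h12', ← h6] at h5
    exact (div_left_inj' (hx0' l)).1 h5
  refine (Set.encard_le_encard_of_injOn h2 h3).trans ?_
  rw [Set.encard_coe_eq_coe_finsetCard]
  have h4 : (Polynomial.nthRootsFinset m (1 : ℂ)).card ≤ m := by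
    classical
    rw [Polynomial.nthRootsFinset_def]
    exact (Multiset.toFinset_card_le _).trans (Polynomial.card_nthRoots m 1)
  exact_mod_cast h4

end Pool.Agent.MPb0eF
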