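import Pool.Agent.Lib.MP_b0e20b_ag_G.Sd
import Pool.Agent.Lib.MP_b0e20b_ag_G.Ro
import Pool.Agent.Lib.MP_b0e20b_ag_P.Cn

/-!
# MP_b0e20b_ag, project G: generic sequences and the growth exponents
-/

set_option autoImplicit false

open scoped BigOperators Topology
open Filter MvPolynomial

namespace Pool.Agent.MPb0eF

open MPb0eQ (Sct dS sq PA G toC)

variable {κ : Type} [Fintype κ] [DecidableEq κ] {d : ℕ} {bl : κ → Fin d} {h sg : NS bl → ℝ}
  {r : Fin d → ℝ}

/-- Generic sequences with the generic number of solutions. Proof: `MPb0eP.dense_ne_real` for the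
neighbourhoods of `tra`. -/
theorem gen_seq (s0 : ∀ S, sg S ≠ 0) {N : ℕ} {P : MvPolynomial (Sct bl) ℂ} (hP : P ≠ 0)
    (hN : ∀ c : Sct bl → ℂ, eval c P ≠ 0 → {x | G bl c x = 0}.encard = N) :
    ∃ (c : ℕ → Sct bl → ℝ) (a : NS bl → ℕ → ℝ) (x : Fin N → ℕ → κ → ℂ),
      (∀ i, SD h sg c a (x i)) ∧ ∀ n, Function.Injective fun i => x i n := by
  classical
  have key : ∀ n : ℕ, ∃ (c : Sct bl → ℝ) (x : Fin N → κ → ℂ),
      (∀ S : NS bl, |c S.1 / ((n : ℝ) + 1) ^ h S - sg S| < 1 / ((n : ℝ) + 1)) ∧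
        (∀ i, G bl (toC bl c) (x i) = 0) ∧ Function.Injective x := by
    intro n
    have hn : (0 : ℝ) < (n : ℝ) + 1 := by positivity
    set c0 : Sct bl → ℝ :=
      fun T => if hT : T.1.Nonempty then sg ⟨T, hT⟩ * ((n : ℝ) + 1) ^ h ⟨T, hT⟩ else 0 with hc0
    have h1 : ∀ S : NS bl, ∀ᶠ c in 𝓝 c0,
        |c S.1 / ((n : ℝ) + 1) ^ h S - sg S| < 1 / ((n : ℝ) + 1) := by
      intro S
      have hcont : Continuous fun c : Sct bl → ℝ =>
          |c S.1 / ((n : ℝ) + 1) ^ h S - sg S| := by fun_prop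
      have hp : (0 : ℝ) < ((n : ℝ) + 1) ^ h S := Real.rpow_pos_of_pos hn _
      have h0 : |c0 S.1 / ((n : ℝ) + 1) ^ h S - sg S| = 0 := by
        have e1 : c0 S.1 = sg S * ((n : ℝ) + 1) ^ h S := by
          simp only [hc0]
          rw [dif_pos S.2]
        rw [e1, mul_div_assoc, div_self hp.ne', mul_one, sub_self, abs_zero]
      have h2 := hcont.tendsto c0
      rw [h0] at h2
      exact h2.eventually_lt_const (by positivity)
    obtain ⟨c, hc, hcP⟩ := MPb0eP.dense_ne_real P hP c0 _ (Filter.eventually_all.2 h1)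
    have h2 : {x | G bl (toC bl c) x = 0}.encard = N := hN (toC bl c) hcP
    have hfin : {x | G bl (toC bl c) x = 0}.Finite := Set.finite_of_encard_eq_coe h2
    have hcard : hfin.toFinset.card = N := by
      have h3 := hfin.encard_eq_coe_toFinset_card
      rw [h2] at h3
      exact_mod_cast h3.symm
    let e := (hfin.toFinset.equivFinOfCardEq hcard).symm
    refine ⟨c, fun i => (e i).1, hc, ?_, ?_⟩
    · intro i
      have h3 := (e i).2
      rw [Set.Finite.mem_toFinset] at h3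
      exact h3
    · intro i j hij
      exact e.injective (Subtype.ext hij)
  choose c x h1 h2 h3 using key
  refine ⟨c, fun S n => c n S.1 / ((n : ℝ) + 1) ^ h S, fun i n => x n i, ?_, ?_⟩
  · intro i
    refine ⟨s0, ?_, ?_, fun n => h2 n i⟩
    · intro S
      have hle : uf ≤ atTop := by
        rw [← Nat.cofinite_eq_atTop]
        exact Filter.hyperfilter_le_cofinite
      have e1 : Tendsto (fun n : ℕ => 1 / ((n : ℝ) + 1)) atTop (𝓝 0) :=
        tendsto_one_div_add_atTop_nhds_zero_nat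
      have e2 : Tendsto (fun n : ℕ => c n S.1 / ((n : ℝ) + 1) ^ h S - sg S) atTop (𝓝 0) :=
        squeeze_zero_norm (fun n => by rw [Real.norm_eq_abs]; exact (h1 n S).le) e1
      have e3 := (e2.mono_left hle).add_const (sg S)
      simpa using e3
    · intro S n
      have hp : (0 : ℝ) < ((n : ℝ) + 1) ^ h S := Real.rpow_pos_of_pos (by positivity) _
      field_simp
  · intro n i j hij
    exact h3 n hij

/-- Many growth exponents. Proof: `gen_seq`; every sequence `x i` has by `fd_of` (`sd_mon`, `genF`,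
`spanF`, `relF`) growth exponents `w i` and a leading point `x0 i`; by `fd_inj` the map
`i ↦ (w i, x0 i)` is injective; by `card_le` there are at most `m (w i)` leading points for `w i`,
where `m (w i)` is the number from `CQ`. -/
theorem many_w (s0 : ∀ S, sg S ≠ 0) (hh : ∀ (c : NS bl → ℤ) (e : Fin d → ℤ),
      ∑ S, (c S : ℝ) * h S + ∑ i, (e i : ℝ) * r i = 0 → c = 0 ∧ e = 0) {D : ℕ}
    (hC : CQ D (vF bl) (eF bl) (hF bl h) (moF bl)) {N : ℕ} {P : MvPolynomial (Sct bl) ℂ}
    (hP : P ≠ 0) (hN : ∀ c : Sct bl → ℂ, eval c P ≠ 0 → {x | G bl c x = 0}.encard = N) :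
    ∃ (W : Finset (Un κ d → ℝ)) (m : (Un κ d → ℝ) → ℕ),
      (∀ w ∈ W, m w ≤ D ∧ Ty (vF bl) (eF bl) (hF bl h) (moF bl) w (m w)) ∧
        N ≤ ∑ w ∈ W, m w := by
  classical
  have hh' : ∀ c : NS bl → ℤ, ∑ S, (c S : ℝ) * h S = 0 → c = 0 := by
    intro c hc
    exact (hh c 0 (by simpa using hc)).1
  obtain ⟨c, a, x, hD, hinj⟩ := gen_seq (h := h) s0 hP hN
  have hk : ∀ E, kF bl sg E ≠ 0 := by
    rintro (S | E)
    · exact s0 S
    · exact one_ne_zero
  have key : ∀ i, ∃ (w : Un κ d → ℝ) (x0 : Un κ d → ℂ),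
      FD (vF bl) (eF bl) (hF bl h) (kF bl sg) w x0 ∧ ∀ l, Tendsto (fun n : ℕ =>
        yF bl (x i n) l / ((((n : ℝ) + 1) ^ w l : ℝ) : ℂ)) uf (𝓝 (x0 l)) := fun i =>
    fd_of (sd_mon hh (hD i)) (genF hh') rfl spanF
      (Filter.Eventually.of_forall fun n l => relF ((hD i).sol n) l)
  choose w x0 hFD hlim using key
  have hex : ∀ i, ∃ m, m ≤ D ∧ Ty (vF bl) (eF bl) (hF bl h) (moF bl) (w i) m := by
    intro i
    obtain ⟨_, lev, ζ, g1, g2, g3, g4, g5, _⟩ := hFD i
    obtain ⟨l0, m, hm, hcyc⟩ := hC (w i) lev ζ g1 g2 g3 g4 g5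
    exact ⟨m, hm, lev, ζ, l0, g1, g2, g3, g4, g5, hcyc⟩
  let m : (Un κ d → ℝ) → ℕ := fun v =>
    if hv : ∃ m, m ≤ D ∧ Ty (vF bl) (eF bl) (hF bl h) (moF bl) v m then hv.choose else 0
  have hm : ∀ i, m (w i) ≤ D ∧ Ty (vF bl) (eF bl) (hF bl h) (moF bl) (w i) (m (w i)) := by
    intro i
    have h1 : m (w i) = (hex i).choose := dif_pos (hex i)
    rw [h1]
    exact (hex i).choose_spec
  refine ⟨Finset.univ.image w, m, ?_, ?_⟩
  · intro v hv
    obtain ⟨i, _, rfl⟩ := Finset.mem_image.1 hv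
    exact hm i
  · have h1 : N = ∑ v ∈ Finset.univ.image w,
        (Finset.univ.filter fun i : Fin N => w i = v).card := by
      rw [← Finset.card_eq_sum_card_image]
      simp
    have h2 : ∀ v ∈ Finset.univ.image w,
        (Finset.univ.filter fun i : Fin N => w i = v).card ≤ m v := by
      intro v hv
      obtain ⟨i₀, _, rfl⟩ := Finset.mem_image.1 hv
      have h3 := card_le hk (hm i₀).2 (k := kF bl sg)
      have h4 : (x0 '' {i : Fin N | w i = w i₀}) ⊆
          {y | FD (vF bl) (eF bl) (hF bl h) (kF bl sg) (w i₀) y} := by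
        rintro _ ⟨i, hi, rfl⟩
        have h5 := hFD i
        rw [Set.mem_setOf_eq] at hi
        rw [hi] at h5
        exact h5
      have h5 : Set.InjOn x0 {i : Fin N | w i = w i₀} := by
        intro i hi j hj hij
        rw [Set.mem_setOf_eq] at hi hj
        have hli := hlim i
        have hlj := hlim j
        rw [hi] at hli
        rw [hj, ← hij] at hlj
        have h6 := fd_inj (sd_mon hh (hD i)) (sd_mon hh (hD j)) (genF hh') rfl spanF
          (Filter.Eventually.of_forall fun n l => relF ((hD i).sol n) l)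
          (Filter.Eventually.of_forall fun n l => relF ((hD j).sol n) l) (hFD i).1 hli hlj
        obtain ⟨n, hn⟩ := h6.exists
        exact hinj n (funext fun k => hn (.inl k))
      have h6 := (h5.encard_image).symm.le.trans ((Set.encard_le_encard h4).trans h3)
      have h7 : ({i : Fin N | w i = w i₀} : Set (Fin N)) =
          ((Finset.univ.filter fun i : Fin N => w i = w i₀ : Finset (Fin N)) : Set (Fin N)) := by
        ext i
        simp
      rw [h7, Set.encard_coe_eq_coe_finsetCard] at h6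
      exact_mod_cast h6
    calc N = _ := h1
      _ ≤ _ := Finset.sum_le_sum h2

end Pool.Agent.MPb0eF
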