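import Pool.Agent.Lib.MP_b0e20b_ag_G.Defs

/-!
# MP_b0e20b_ag, project G: the leading point of a sequence
-/

set_option autoImplicit false

open scoped BigOperators Topology
open Filter

namespace Pool.Agent.MPb0eF

variable {Ω Λ Ρ : Type} [Fintype Ω] [Fintype Λ] [Fintype Ρ] {z : Ω → ℕ → ℂ} {lev : Ω → ℕ}
  {ζ : Ω → ℂ} {vec : Ω → Ρ → ℤ} {ex : Ω → Λ → ℤ} {ω : ℕ → ℝ} {h : Ω → ℝ} {x : Λ → ℕ → ℂ}
  {κ : Ω → ℕ → ℝ} {k : Ω → ℝ}

omit [Fintype Λ] in
/-- Integral coefficients for the coordinates. -/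
private theorem Pt_int {ex : Ω → Λ → ℤ} (hS : Sp ex lev) (v : Λ → ℚ) :
    ∃ (D : ℤ) (c : Ω → ℤ), D ≠ 0 ∧ BSum lev c ∧
      ∀ l, ((∑ E, c E * ex E l : ℤ) : ℚ) = D * v l := by
  obtain ⟨c, hc, hv⟩ := hS v
  obtain ⟨D, m, hD, hm'⟩ := clear c
  refine ⟨D, m, hD, ?_, ?_⟩
  · intro j
    have h1 := hc j
    have h2 : ((∑ E, (if lev E = j then m E else 0) : ℤ) : ℚ) = 0 := by
      push_cast
      calc ∑ E, (if lev E = j then (m E : ℚ) else 0)
          = ∑ E, (D : ℚ) * (if lev E = j then c E else 0) := by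
            apply Finset.sum_congr rfl
            intro E _
            split_ifs
            · rw [hm']
            · rw [mul_zero]
        _ = 0 := by rw [← Finset.mul_sum, h1, mul_zero]
    exact_mod_cast h2
  · intro l
    push_cast
    rw [← hv l, Finset.mul_sum]
    apply Finset.sum_congr rfl
    intro E _
    rw [← hm', mul_assoc]

/-- One unknown. -/
private theorem Pt_one (hf : IsFlag z lev ζ) (hm : Mon z ω h x ex κ k) (hS : Sp ex lev) (l : Λ) :
    ∃ (w : ℝ) (x0 : ℂ), x0 ≠ 0 ∧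
      Tendsto (fun n => x l n / ((ω n ^ w : ℝ) : ℂ)) uf (𝓝 x0) := by
  classical
  obtain ⟨D, c, hD, hc, hv⟩ := Pt_int hS (fun l' => if l' = l then 1 else 0)
  have h1 := (mon_lim hf hm hc).norm
  have hT : 0 < ‖∏ E, (ζ E / (k E : ℂ)) ^ c E‖ := by
    rw [norm_pos_iff, Finset.prod_ne_zero_iff]
    intro E _
    exact zpow_ne_zero _ (div_ne_zero (hf.ζ0 E) (by exact_mod_cast hm.k0 E))
  generalize ‖∏ E, (ζ E / (k E : ℂ)) ^ c E‖ = T at h1 hT
  generalize (∑ E, (c E : ℝ) * h E) = s at h1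
  have hD' : (D : ℝ) ≠ 0 := by exact_mod_cast hD
  have hexp : ∀ l', (∑ E, c E * ex E l' : ℤ) = if l' = l then D else 0 := by
    intro l'
    have h2 := hv l'
    split_ifs at h2 ⊢ with h3
    · rw [mul_one] at h2
      exact_mod_cast h2
    · rw [mul_zero] at h2
      exact_mod_cast h2
  have hprod : ∀ n, ∏ l', x l' n ^ (∑ E, c E * ex E l') = x l n ^ D := by
    intro n
    rw [Finset.prod_eq_single l]
    · rw [hexp l, if_pos rfl]
    · intro l' _ hl'
      rw [hexp l', if_neg hl', zpow_zero]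
    · intro h'
      exact absurd (Finset.mem_univ l) h'
  simp only [hprod] at h1
  -- the exponent
  have h2 : Tendsto (fun n => ‖x l n / ((ω n ^ (-s / D) : ℝ) : ℂ)‖) uf (𝓝 (T ^ (1 / (D : ℝ)))) := by
    have h3 := h1.rpow_const (p := 1 / (D : ℝ)) (Or.inl hT.ne')
    refine h3.congr' ?_
    filter_upwards [hm.x0 l] with n hn
    have hω := hm.pos n
    have hx : 0 < ‖x l n‖ := norm_pos_iff.2 hn
    rw [norm_mul, Complex.norm_real, Real.norm_of_nonneg (Real.rpow_nonneg hω.le _), norm_div,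
      Complex.norm_real, Real.norm_of_nonneg (Real.rpow_nonneg hω.le _), norm_zpow,
      Real.mul_rpow (Real.rpow_nonneg hω.le _) (zpow_nonneg hx.le _), ← Real.rpow_mul hω.le,
      ← Real.rpow_intCast, ← Real.rpow_mul hx.le, mul_one_div_cancel hD', Real.rpow_one]
    have h5 : s * (1 / (D : ℝ)) = -(-s / D) := by ring
    rw [h5, Real.rpow_neg hω.le, mul_comm, div_eq_mul_inv ‖x l n‖]
  have h4 : ∀ᶠ n in uf, ‖x l n / ((ω n ^ (-s / D) : ℝ) : ℂ)‖ ≤ T ^ (1 / (D : ℝ)) + 1 := by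
    filter_upwards [h2.eventually_lt_const (lt_add_one _)] with n hn
    exact hn.le
  obtain ⟨x0, hx0⟩ := bdd_lim h4
  refine ⟨-s / D, x0, ?_, hx0⟩
  have h5 := tendsto_nhds_unique hx0.norm h2
  rw [← norm_pos_iff, h5]
  exact Real.rpow_pos_of_pos hT _

omit [Fintype Ω] in
/-- The size of the elements. -/
private theorem Pt_el (hm : Mon z ω h x ex κ k) {w : Λ → ℝ} {x0 : Λ → ℂ} (h0 : ∀ l, x0 l ≠ 0)
    (hx : ∀ l, Tendsto (fun n => x l n / ((ω n ^ w l : ℝ) : ℂ)) uf (𝓝 (x0 l))) (E : Ω) :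
    Tendsto (fun n => z E n / ((ω n ^ val h ex w E : ℝ) : ℂ)) uf
      (𝓝 ((k E : ℂ) * ∏ l, x0 l ^ ex E l)) := by
  have h1 : Tendsto (fun n => (κ E n : ℂ)) uf (𝓝 (k E : ℂ)) :=
    (Complex.continuous_ofReal.tendsto (k E)).comp (hm.lim E)
  have h2 : Tendsto (fun n => ∏ l, (x l n / ((ω n ^ w l : ℝ) : ℂ)) ^ ex E l) uf
      (𝓝 (∏ l, x0 l ^ ex E l)) :=
    tendsto_finsetProd _ fun l _ => (hx l).zpow₀ (ex E l) (Or.inl (h0 l))
  refine (h1.mul h2).congr' ?_
  filter_upwards [hm.eq E] with n he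
  have hω := hm.pos n
  have h3 : ((ω n ^ val h ex w E : ℝ) : ℂ) =
      ((ω n ^ h E : ℝ) : ℂ) * ∏ l, ((ω n ^ w l : ℝ) : ℂ) ^ ex E l := by
    rw [val, Real.rpow_add hω, Real.rpow_sum_of_pos hω, Complex.ofReal_mul, Complex.ofReal_prod]
    congr 1
    refine Finset.prod_congr rfl fun l _ => ?_
    rw [mul_comm, Real.rpow_mul hω.le, Real.rpow_intCast, Complex.ofReal_zpow]
  have h4 : ((ω n ^ h E : ℝ) : ℂ) ≠ 0 := by
    exact_mod_cast (Real.rpow_pos_of_pos hω _).ne'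
  rw [he, h3]
  simp only [div_zpow]
  rw [Finset.prod_div_distrib, mul_assoc, mul_div_assoc, mul_div_mul_left _ _ h4]

omit [Fintype Ω] in
/-- The quotient of two elements. -/
private theorem Pt_quot (hm : Mon z ω h x ex κ k) {w : Λ → ℝ} {x0 : Λ → ℂ} (h0 : ∀ l, x0 l ≠ 0)
    (hx : ∀ l, Tendsto (fun n => x l n / ((ω n ^ w l : ℝ) : ℂ)) uf (𝓝 (x0 l))) (E E' : Ω) {r : ℂ}
    (hr : Tendsto (fun n => z E' n / z E n) uf (𝓝 r)) :
    Tendsto (fun n => ((ω n ^ (val h ex w E' - val h ex w E) : ℝ) : ℂ)) uf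
      (𝓝 (r * (((k E : ℂ) * ∏ l, x0 l ^ ex E l) / ((k E' : ℂ) * ∏ l, x0 l ^ ex E' l)))) := by
  have hne : ∀ E, (k E : ℂ) * ∏ l, x0 l ^ ex E l ≠ 0 := fun E =>
    mul_ne_zero (by exact_mod_cast hm.k0 E)
      (Finset.prod_ne_zero_iff.2 fun l _ => zpow_ne_zero _ (h0 l))
  have h1 := Pt_el hm h0 hx E
  have h2 := Pt_el hm h0 hx E'
  have h3 := hr.mul (h1.div h2 (hne E'))
  refine h3.congr' ?_
  have hz : ∀ E, ∀ᶠ n in uf, z E n / ((ω n ^ val h ex w E : ℝ) : ℂ) ≠ 0 := fun E =>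
    (Pt_el hm h0 hx E).eventually_ne (hne E)
  filter_upwards [hz E, hz E'] with n a a'
  have hω := hm.pos n
  have b : ((ω n ^ val h ex w E : ℝ) : ℂ) ≠ 0 := by
    exact_mod_cast (Real.rpow_pos_of_pos hω _).ne'
  have b' : ((ω n ^ val h ex w E' : ℝ) : ℂ) ≠ 0 := by
    exact_mod_cast (Real.rpow_pos_of_pos hω _).ne'
  have c : z E n ≠ 0 := fun h => a (by rw [h, zero_div])
  have c' : z E' n ≠ 0 := fun h => a' (by rw [h, zero_div])
  rw [Real.rpow_sub hω, Complex.ofReal_div]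
  simp only [Pi.div_apply]
  field_simp

/-- The leading point. Proof: by `Sp` (clear the denominators) and `mon_lim` some power
`x l n ^ m * ω n ^ s` with `m > 0` converges to a nonzero number; with `w l = - s / m` the
quotient `x l n / ω n ^ w l` has a norm with a positive limit, so it converges along the ultrafilter
(`bdd_lim`). So `z E n / ω n ^ val h ex w E` converges to the nonzero number
`k E * ∏ l, x0 l ^ ex E l`. The ratios inside the levels give that `val` is constant on the levels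
and the last claim; for `lev E < lev E'` the quotient `z E' n / z E n` tends to zero, so
`val h ex w E' < val h ex w E`. -/
theorem exists_pt (hf : IsFlag z lev ζ) (hm : Mon z ω h x ex κ k) (hS : Sp ex lev) :
    ∃ (w : Λ → ℝ) (x0 : Λ → ℂ), (∀ l, x0 l ≠ 0) ∧
      (∀ l, Tendsto (fun n => x l n / ((ω n ^ w l : ℝ) : ℂ)) uf (𝓝 (x0 l))) ∧
      Lev h ex w lev ∧ ∀ E E', lev E = lev E' →
        (k E : ℂ) * (∏ l, x0 l ^ ex E l) * ζ E' = (k E' : ℂ) * (∏ l, x0 l ^ ex E' l) * ζ E := by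
  choose w x0 h0 hx using Pt_one hf hm hS
  have hne : ∀ E, (k E : ℂ) * ∏ l, x0 l ^ ex E l ≠ 0 := fun E =>
    mul_ne_zero (by exact_mod_cast hm.k0 E)
      (Finset.prod_ne_zero_iff.2 fun l _ => zpow_ne_zero _ (h0 l))
  have hval : ∀ E E', lev E = lev E' → val h ex w E = val h ex w E' := by
    intro E E' he
    have h1 := (Pt_quot hm h0 hx E E' (hf.sim E E' he)).norm
    have h2 : ∀ n, ‖((ω n ^ (val h ex w E' - val h ex w E) : ℝ) : ℂ)‖ =
        ω n ^ (val h ex w E' - val h ex w E) := fun n => by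
      rw [Complex.norm_real, Real.norm_of_nonneg (Real.rpow_nonneg (hm.pos n).le _)]
    simp only [h2] at h1
    have h3 : (0 : ℝ) < ‖ζ E' / ζ E * (((k E : ℂ) * ∏ l, x0 l ^ ex E l) /
        ((k E' : ℂ) * ∏ l, x0 l ^ ex E' l))‖ :=
      norm_pos_iff.2 (mul_ne_zero (div_ne_zero (hf.ζ0 _) (hf.ζ0 _)) (div_ne_zero (hne _) (hne _)))
    rcases lt_trichotomy (val h ex w E' - val h ex w E) 0 with hs | hs | hs
    · exfalso
      have h4 : Tendsto (fun n => ω n ^ (val h ex w E' - val h ex w E)) uf (𝓝 0) := by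
        have h5 := (tendsto_rpow_neg_atTop (neg_pos.2 hs)).comp hm.top
        rw [neg_neg] at h5
        exact h5
      exact h3.ne' (tendsto_nhds_unique h1 h4)
    · linarith
    · exfalso
      exact not_tendsto_nhds_of_tendsto_atTop ((tendsto_rpow_atTop hs).comp hm.top) _ h1
  refine ⟨w, x0, h0, hx, ⟨hval, ?_⟩, ?_⟩
  · intro E E' he
    by_contra hcon
    have hge : 0 ≤ val h ex w E' - val h ex w E := by
      have := not_lt.1 hcon
      linarith
    have h1 := (Pt_quot hm h0 hx E E' (hf.dom E E' he)).norm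
    rw [zero_mul, norm_zero] at h1
    have h2 : ∀ᶠ n in uf, (1 : ℝ) ≤ ‖((ω n ^ (val h ex w E' - val h ex w E) : ℝ) : ℂ)‖ := by
      filter_upwards [hm.top.eventually_ge_atTop 1] with n hn
      rw [Complex.norm_real, Real.norm_of_nonneg (Real.rpow_nonneg (hm.pos n).le _)]
      exact Real.one_le_rpow hn hge
    have h3 := ge_of_tendsto h1 h2
    exact absurd h3 (by norm_num)
  · intro E E' he
    have h1 := Pt_quot hm h0 hx E E' (hf.sim E E' he)
    have h2 : ∀ n, ((ω n ^ (val h ex w E' - val h ex w E) : ℝ) : ℂ) = 1 := by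
      intro n
      rw [hval E E' he, sub_self, Real.rpow_zero, Complex.ofReal_one]
    simp only [h2] at h1
    have h3 := tendsto_nhds_unique h1 tendsto_const_nhds
    have a := hne E
    have a' := hne E'
    have b := hf.ζ0 E
    have b' := hf.ζ0 E'
    rw [div_mul_div_comm, div_eq_one_iff_eq (mul_ne_zero b a')] at h3
    linear_combination h3

omit [Fintype Ω] in
/-- The elements do not vanish. -/
private theorem Pt_z0 (hm : Mon z ω h x ex κ k) (E : Ω) : ∀ᶠ n in uf, z E n ≠ 0 := by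
  have h1 : ∀ᶠ n in uf, κ E n ≠ 0 := (hm.lim E).eventually_ne (hm.k0 E)
  have h2 : ∀ᶠ n in uf, ∀ l, x l n ≠ 0 := Filter.eventually_all.2 hm.x0
  filter_upwards [h1, h2, hm.eq E] with n a b e
  rw [e]
  refine mul_ne_zero (mul_ne_zero (by exact_mod_cast a) ?_) ?_
  · exact_mod_cast (Real.rpow_pos_of_pos (hm.pos n) _).ne'
  · exact Finset.prod_ne_zero_iff.2 fun l _ => zpow_ne_zero _ (b l)

/-- Every sequence of solutions has a leading point. Proof: `exists_flag`, `inR_self`, `ind`, `cnt`,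
`exists_pt` (as in `real_of`). -/
theorem fd_of (hm : Mon z ω h x ex κ k) (hg : Gen h ex)
    (hcard : Fintype.card Λ = Fintype.card Ρ)
    (hspan : ∀ φ : Ρ → ℚ, (∀ E, dot φ (vec E) = 0) → φ = 0)
    (hrel : ∀ᶠ n in uf, ∀ l, ∑ E, z E n * (vec E l : ℂ) = 0) :
    ∃ (w : Λ → ℝ) (x0 : Λ → ℂ), FD vec ex h k w x0 ∧
      ∀ l, Tendsto (fun n => x l n / ((ω n ^ w l : ℝ) : ℂ)) uf (𝓝 (x0 l)) := by
  obtain ⟨lev, ζ, hf⟩ := exists_flag z (Pt_z0 hm)
  have hR := inR_self hf hrel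
  obtain ⟨-, hU, hS⟩ := cnt hcard.le hf.ζ0 hR hspan fun c hc he => ind hf hm hg hc he
  obtain ⟨w, x0, h0, hx, hL, he⟩ := exists_pt hf hm hS
  exact ⟨w, x0, ⟨h0, lev, ζ, hL, hf.ζ0, hR, hU, hS, he⟩, hx⟩

/-- Two sequences of solutions with the same leading point are equal. Proof: `exists_flag`,
`inR_self`, `ind`, `cnt` for `z`, and `rig` with `ε l n = x' l n / x l n - 1`. -/
theorem fd_inj {z' : Ω → ℕ → ℂ} {x' : Λ → ℕ → ℂ} (hm : Mon z ω h x ex κ k)
    (hm' : Mon z' ω h x' ex κ k) (hg : Gen h ex) (hcard : Fintype.card Λ = Fintype.card Ρ)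
    (hspan : ∀ φ : Ρ → ℚ, (∀ E, dot φ (vec E) = 0) → φ = 0)
    (hrel : ∀ᶠ n in uf, ∀ l, ∑ E, z E n * (vec E l : ℂ) = 0)
    (hrel' : ∀ᶠ n in uf, ∀ l, ∑ E, z' E n * (vec E l : ℂ) = 0) {w : Λ → ℝ} {x0 : Λ → ℂ}
    (h0 : ∀ l, x0 l ≠ 0)
    (hx : ∀ l, Tendsto (fun n => x l n / ((ω n ^ w l : ℝ) : ℂ)) uf (𝓝 (x0 l)))
    (hx' : ∀ l, Tendsto (fun n => x' l n / ((ω n ^ w l : ℝ) : ℂ)) uf (𝓝 (x0 l))) :
    ∀ᶠ n in uf, ∀ l, x l n = x' l n := by
  obtain ⟨lev, ζ, hf⟩ := exists_flag z (Pt_z0 hm)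
  have hR := inR_self hf hrel
  obtain ⟨-, hU, hS⟩ := cnt hcard.le hf.ζ0 hR hspan fun c hc he => ind hf hm hg hc he
  have hε : ∀ l, Tendsto (fun n => x' l n / x l n - 1) uf (𝓝 0) := by
    intro l
    have h1 := ((hx' l).div (hx l) (h0 l)).sub_const 1
    rw [div_self (h0 l), sub_self] at h1
    refine h1.congr fun n => ?_
    have h2 : ((ω n ^ w l : ℝ) : ℂ) ≠ 0 := by
      exact_mod_cast (Real.rpow_pos_of_pos (hm.pos n) _).ne'
    simp only [Pi.div_apply]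
    rw [div_div_div_cancel_right₀ h2]
  have h2 : ∀ᶠ n in uf, ∀ l, x l n ≠ 0 := Filter.eventually_all.2 hm.x0
  have h3 : ∀ᶠ n in uf, ∀ E, z E n =
      (κ E n : ℂ) * ((ω n ^ h E : ℝ) : ℂ) * ∏ l, x l n ^ ex E l := Filter.eventually_all.2 hm.eq
  have h3' : ∀ᶠ n in uf, ∀ E, z' E n =
      (κ E n : ℂ) * ((ω n ^ h E : ℝ) : ℂ) * ∏ l, x' l n ^ ex E l := Filter.eventually_all.2 hm'.eq
  have h4 := rig (ε := fun l n => x' l n / x l n - 1) hf hU hS hrel hε (by
    filter_upwards [h2, h3, h3', hrel'] with n a b b' e l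
    have e1 : ∀ E, z E n * (∏ l', (1 + (x' l' n / x l' n - 1)) ^ ex E l') = z' E n := by
      intro E
      rw [b E, b' E, mul_assoc, ← Finset.prod_mul_distrib]
      congr 1
      refine Finset.prod_congr rfl fun l' _ => ?_
      rw [← mul_zpow]
      congr 1
      have := a l'
      field_simp
      ring
    rw [← e l]
    exact Finset.sum_congr rfl fun E _ => by rw [e1 E])
  filter_upwards [h4, h2] with n e a l
  have e1 := e l
  have e3 : x' l n / x l n = 1 := by linear_combination e1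
  rw [div_eq_one_iff_eq (a l)] at e3
  exact e3.symm

end Pool.Agent.MPb0eF
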