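import Pool.Agent.Lib.MP_b0e20b_ag_F.Fin
import Pool.Agent.Lib.MP_b0e20b_ag_G.Pt

/-!
# MP_b0e20b_ag, project G: sequences of solutions of the critical system
-/

set_option autoImplicit false

open scoped BigOperators Topology
open Filter

namespace Pool.Agent.MPb0eF

open MPb0eQ (Sct dS sq PA G toC)

variable {κ : Type} [Fintype κ] [DecidableEq κ] {d : ℕ} {bl : κ → Fin d} {h sg : NS bl → ℝ}
  {r : Fin d → ℝ} {c : ℕ → Sct bl → ℝ} {a : NS bl → ℕ → ℝ} {x : ℕ → κ → ℂ}

/-- The unknowns do not vanish. -/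
theorem sd_ne (hh : ∀ (c : NS bl → ℤ) (e : Fin d → ℤ),
      ∑ S, (c S : ℝ) * h S + ∑ i, (e i : ℝ) * r i = 0 → c = 0 ∧ e = 0) (hD : SD h sg c a x) :
    ∀ᶠ n in uf, ∀ l, yF bl (x n) l ≠ 0 := by
  classical
  have hh' : ∀ c : NS bl → ℤ, ∑ S, (c S : ℝ) * h S = 0 → c = 0 := by
    intro c hc
    exact (hh c 0 (by simpa using hc)).1
  obtain ⟨p, hp⟩ : ∃ p : Finset κ × Finset (Fin d), ∀ᶠ n in uf,
      ((Finset.univ.filter fun k => x n k = 0, Finset.univ.filter fun i => sq bl (x n) i = 0) :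
        Finset κ × Finset (Fin d)) = p := by
    by_contra hcon
    simp only [not_exists] at hcon
    have h1 : ∀ p : Finset κ × Finset (Fin d), ∀ᶠ n in uf,
        ¬ ((Finset.univ.filter fun k => x n k = 0,
          Finset.univ.filter fun i => sq bl (x n) i = 0) : Finset κ × Finset (Fin d)) = p :=
      fun p => Ultrafilter.eventually_not.2 (hcon p)
    obtain ⟨n, hn⟩ := (Filter.eventually_all.2 h1).exists
    exact hn _ rfl
  obtain ⟨Z, Y⟩ := p
  have h0 : ∀ᶠ n in uf, (∀ k, x n k = 0 ↔ k ∈ Z) ∧ ∀ i, sq bl (x n) i = 0 ↔ i ∈ Y := by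
    filter_upwards [hp] with n hn
    rw [Prod.mk.injEq] at hn
    exact ⟨fun k => by rw [← hn.1]; simp, fun i => by rw [← hn.2]; simp⟩
  rcases Y.eq_empty_or_nonempty with rfl | hY
  swap
  · exact (noA hh hD hY h0).elim
  have h1 : ∀ᶠ n in uf, (∀ k, x n k = 0 ↔ k ∈ Z) ∧ ∀ i, sq bl (x n) i ≠ 0 := by
    filter_upwards [h0] with n hn
    exact ⟨hn.1, fun i hi => by simpa using (hn.2 i).1 hi⟩
  rcases Z.eq_empty_or_nonempty with rfl | hZ
  swap
  · exact (noC hh' hD hZ h1).elim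
  filter_upwards [h1] with n hn
  rintro (k | i)
  · intro h2
    simpa using (hn.1 k).1 h2
  · exact hn.2 i

/-- The real coefficients of the elements of the sequence. -/
def aF (a : NS bl → ℕ → ℝ) : El bl → ℕ → ℝ
  | .inl S, n => a S n
  | .inr _, _ => 1

/-- The elements are monomials in the unknowns. -/
theorem sd_mon (hh : ∀ (c : NS bl → ℤ) (e : Fin d → ℤ),
      ∑ S, (c S : ℝ) * h S + ∑ i, (e i : ℝ) * r i = 0 → c = 0 ∧ e = 0) (hD : SD h sg c a x) :
    Mon (fun E n => zF bl (toC bl (c n)) (x n) E) (fun n : ℕ => (n : ℝ) + 1) (hF bl h)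
      (fun l n => yF bl (x n) l) (eF bl) (aF a) (kF bl sg) := by
  have h1 := sd_ne hh hD
  refine ⟨fun n => by positivity, ?_, ?_, ?_, ?_, ?_⟩
  · have hle : uf ≤ atTop := by
      rw [← Nat.cofinite_eq_atTop]
      exact Filter.hyperfilter_le_cofinite
    exact (tendsto_atTop_add_const_right _ _ tendsto_natCast_atTop_atTop).mono_left hle
  · intro l
    filter_upwards [h1] with n hn
    exact hn l
  · rintro (S | E)
    · exact hD.s0 S
    · exact one_ne_zero
  · rintro (S | E)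
    · exact hD.lim S
    · exact tendsto_const_nhds
  · intro E
    filter_upwards [h1] with n hn
    rw [monF hn E]
    rcases E with S | E
    · congr 1
      change ((c n S.1 : ℝ) : ℂ) = _
      rw [hD.ceq S n]
      simp [hF, aF]
    · simp [hF, aF]

end Pool.Agent.MPb0eF
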